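import Mathlib

set_option autoImplicit false

open MeasureTheory Metric
open scoped ENNReal Topology

namespace Pool.Agent.J4H86.BES

/-- the union of the lines of the finite family, above `[X1, X2]` -/
def U (P : Finset (ℝ × ℝ)) (c ξ X1 X2 : ℝ) : Set (ℝ × ℝ) :=
  {z | z.1 ∈ Set.Icc X1 X2 ∧ ∃ p ∈ P, ∃ t ∈ Set.Icc (0 : ℝ) 1,
    z.2 = p.1 * z.1 + p.2 + t * c * (z.1 - ξ)}

theorem U_compact (P : Finset (ℝ × ℝ)) (c ξ X1 X2 : ℝ) : IsCompact (U P c ξ X1 X2) := by
  have e : U P c ξ X1 X2 = ⋃ p ∈ P, (fun q : ℝ × ℝ => (q.1, p.1 * q.1 + p.2 + q.2 * c * (q.1 - ξ))) ''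
      (Set.Icc X1 X2 ×ˢ Set.Icc (0 : ℝ) 1) := by
    ext z
    simp only [U, Set.mem_ofPred_eq, Set.mem_iUnion, Set.mem_image, Set.mem_prod, Prod.exists,
      exists_prop]
    constructor
    · rintro ⟨hz, p1, p2, hp, t, ht, h⟩
      exact ⟨p1, p2, hp, z.1, t, ⟨hz, ht⟩, by rw [← h]⟩
    · rintro ⟨p1, p2, hp, x, t, ⟨hx, ht⟩, rfl⟩
      exact ⟨hx, p1, p2, hp, t, ht, rfl⟩
  rw [e]
  apply Finset.isCompact_biUnion
  intro p _
  exact (isCompact_Icc.prod isCompact_Icc).image (by fun_prop)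

/-- area of a family of lines near the focal abscissa -/
theorem U_vol (P : Finset (ℝ × ℝ)) (c ξ X1 X2 D : ℝ) (hc : 0 ≤ c) (h12 : X1 ≤ X2)
    (hD : ∀ x ∈ Set.Icc X1 X2, P.card * (c * |x - ξ|) ≤ D) :
    volume (U P c ξ X1 X2) ≤ ENNReal.ofReal ((X2 - X1) * D) := by
  have hD0 : 0 ≤ D := by
    have := hD X1 ⟨le_rfl, h12⟩
    have h2 : 0 ≤ (P.card : ℝ) * (c * |X1 - ξ|) := by positivity
    linarith
  rw [Measure.volume_eq_prod, Measure.prod_apply (U_compact P c ξ X1 X2).measurableSet]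
  calc ∫⁻ x, volume (Prod.mk x ⁻¹' U P c ξ X1 X2)
      ≤ ∫⁻ x, Set.indicator (Set.Icc X1 X2) (fun _ => ENNReal.ofReal D) x := by
        refine lintegral_mono (fun x => ?_)
        by_cases hx : x ∈ Set.Icc X1 X2
        · rw [Set.indicator_of_mem hx]
          have hsub : Prod.mk x ⁻¹' U P c ξ X1 X2 ⊆ ⋃ p ∈ P,
              (fun y => y - (p.1 * x + p.2)) ⁻¹'
                (Set.uIcc 0 (c * (x - ξ))) := by
            rintro y ⟨_, p, hp, t, ht, h⟩
            refine Set.mem_iUnion₂.2 ⟨p, hp, ?_⟩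
            show y - (p.1 * x + p.2) ∈ Set.uIcc 0 (c * (x - ξ))
            simp only at h
            rw [h]
            have e : p.1 * x + p.2 + t * c * (x - ξ) - (p.1 * x + p.2) = t * (c * (x - ξ)) := by
              ring
            rw [e]
            rcases le_total 0 (c * (x - ξ)) with h0 | h0
            · rw [Set.uIcc_of_le h0]
              exact ⟨mul_nonneg ht.1 h0, mul_le_of_le_one_left h0 ht.2⟩
            · rw [Set.uIcc_of_ge h0]
              constructor
              · nlinarith [ht.2]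
              · exact mul_nonpos_of_nonneg_of_nonpos ht.1 h0
          refine (measure_mono hsub).trans ((measure_biUnion_finset_le _ _).trans ?_)
          have h1 : ∀ p ∈ P, volume ((fun y => y - (p.1 * x + p.2)) ⁻¹'
              (Set.uIcc 0 (c * (x - ξ)))) = ENNReal.ofReal (c * |x - ξ|) := by
            intro p _
            have e2 : (fun y : ℝ => y - (p.1 * x + p.2)) = fun y => y + (-(p.1 * x + p.2)) := by
              funext y
              ring
            rw [e2, measure_preimage_add_right, Real.volume_interval, sub_zero, abs_mul,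
              abs_of_nonneg hc]
          rw [Finset.sum_congr rfl h1, Finset.sum_const, nsmul_eq_mul, ← ENNReal.ofReal_natCast,
            ← ENNReal.ofReal_mul (by positivity)]
          exact ENNReal.ofReal_le_ofReal (hD x hx)
        · rw [Set.indicator_of_notMem hx]
          have : Prod.mk x ⁻¹' U P c ξ X1 X2 = ∅ := by
            ext y
            simp only [Set.mem_preimage, Set.mem_empty_iff_false, iff_false]
            rintro ⟨h2, _⟩
            exact hx h2
          rw [this]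
          simp
    _ = ENNReal.ofReal ((X2 - X1) * D) := by
        rw [lintegral_indicator measurableSet_Icc, setLIntegral_const, Real.volume_Icc,
          ← ENNReal.ofReal_mul hD0, mul_comm]

/-- the state of the construction: a finite family of pencils of lines, all focused above the
abscissa `ξ` -/
def State (α h a0 b1 L δ ξ A : ℝ) : Prop :=
  ∃ (P : Finset (ℝ × ℝ)) (c : ℝ), 0 < c ∧ P.card * c * (α - ξ) ≤ L ∧
    (∃ ρ, ρ < δ ∧ ∀ p ∈ P, ∀ t ∈ Set.Icc (0 : ℝ) 1, |p.1 + t * c - a0| ≤ ρ) ∧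
    (∀ x ∈ Set.Icc α (α + h), ∀ y ∈ Set.Icc (a0 * x + b1) (a0 * x + b1 + L),
      ∃ p ∈ P, ∃ t ∈ Set.Icc (0 : ℝ) 1, y = p.1 * x + p.2 + t * c * (x - ξ)) ∧
    volume (U P c ξ (α - 2) ξ) ≤ ENNReal.ofReal A

theorem exists_index (N : ℕ) (hN : 0 < N) (t : ℝ) (ht : t ∈ Set.Icc (0 : ℝ) 1) :
    ∃ i < N, (i : ℝ) / N ≤ t ∧ t ≤ i / N + 1 / N := by
  have hN' : (0 : ℝ) < N := by exact_mod_cast hN
  rcases ht.2.eq_or_lt with h1 | h1
  · refine ⟨N - 1, by omega, ?_, ?_⟩
    · rw [h1, div_le_one hN']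
      exact_mod_cast (by omega : N - 1 ≤ N)
    · rw [h1, ← add_div, le_div_iff₀ hN', one_mul]
      exact_mod_cast (by omega : N ≤ N - 1 + 1)
  · refine ⟨⌊t * N⌋₊, ?_, ?_, ?_⟩
    · rw [Nat.floor_lt (mul_nonneg ht.1 hN'.le)]
      nlinarith
    · rw [div_le_iff₀ hN']
      exact Nat.floor_le (mul_nonneg ht.1 hN'.le)
    · rw [← add_div, le_div_iff₀ hN']
      exact (Nat.lt_floor_add_one _).le

theorem exists_large (K r : ℝ) (hr : 0 < r) : ∃ N : ℕ, 0 < N ∧ K / N < r := by
  obtain ⟨N, hN⟩ := exists_nat_gt (max (K / r) 1)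
  have h1 : (1 : ℝ) < N := lt_of_le_of_lt (le_max_right _ _) hN
  have h2 : K / r < N := lt_of_le_of_lt (le_max_left _ _) hN
  have h0 : (0 : ℝ) < N := by linarith
  refine ⟨N, by exact_mod_cast h0, ?_⟩
  rw [div_lt_iff₀ h0]
  rw [div_lt_iff₀ hr] at h2
  linarith

theorem state_zero (α h a0 b1 L δ : ℝ) (hL : 0 < L) (hδ : 0 < δ) :
    State α h a0 b1 L δ (α - 2) 0 := by
  obtain ⟨N, hN, hNδ⟩ := exists_large (L / 2) δ hδ
  have hN' : (0 : ℝ) < N := by exact_mod_cast hN
  have hc : 0 < L / 2 / N := by positivity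
  refine ⟨(Finset.range N).image (fun i : ℕ => (a0, b1 + (i : ℝ) / N * L)), L / 2 / N, hc, ?_,
    ⟨L / 2 / N, hNδ, ?_⟩, ?_, ?_⟩
  · have h1 : (((Finset.range N).image (fun i : ℕ => (a0, b1 + (i : ℝ) / N * L))).card : ℝ) ≤ N := by
      have := Finset.card_image_le (s := Finset.range N)
        (f := fun i : ℕ => (a0, b1 + (i : ℝ) / N * L))
      rw [Finset.card_range] at this
      exact_mod_cast this
    have e : α - (α - 2) = 2 := by ring
    rw [e]
    calc _ ≤ (N : ℝ) * (L / 2 / N) * 2 := by gcongr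
      _ = L := by field_simp
  · intro p hp t ht
    rw [Finset.mem_image] at hp
    obtain ⟨i, _, rfl⟩ := hp
    simp only
    have e : a0 + t * (L / 2 / N) - a0 = t * (L / 2 / N) := by ring
    rw [e, abs_of_nonneg (mul_nonneg ht.1 hc.le)]
    exact mul_le_of_le_one_left hc.le ht.2
  · intro x hx y hy
    obtain ⟨i, hi, hi1, hi2⟩ := exists_index N hN ((y - (a0 * x + b1)) / L)
      ⟨div_nonneg (by linarith [hy.1]) hL.le, (div_le_one hL).2 (by linarith [hy.2])⟩
    set τ := (y - (a0 * x + b1)) / L with hτ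
    have hyτ : y = a0 * x + b1 + τ * L := by
      rw [hτ]
      field_simp
      ring
    have hxξ : 2 ≤ x - (α - 2) := by linarith [hx.1]
    have hpos : 0 < L / 2 / N * (x - (α - 2)) := mul_pos hc (by linarith)
    refine ⟨(a0, b1 + (i : ℝ) / N * L), Finset.mem_image.2 ⟨i, Finset.mem_range.2 hi, rfl⟩,
      (τ - i / N) * L / (L / 2 / N * (x - (α - 2))), ⟨?_, ?_⟩, ?_⟩
    · exact div_nonneg (mul_nonneg (by linarith) hL.le) hpos.le
    · rw [div_le_one hpos]
      calc (τ - i / N) * L ≤ (1 / N) * L := by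
            apply mul_le_mul_of_nonneg_right (by linarith) hL.le
        _ = L / 2 / N * 2 := by ring
        _ ≤ L / 2 / N * (x - (α - 2)) := mul_le_mul_of_nonneg_left hxξ hc.le
    · rw [hyτ]
      have e : (τ - i / N) * L / (L / 2 / N * (x - (α - 2))) * (L / 2 / N) * (x - (α - 2)) =
          (τ - i / N) * L := by
        rw [mul_assoc, div_mul_cancel₀ _ hpos.ne']
      simp only
      rw [e]
      ring
  · refine (U_vol _ _ _ _ _ (L * 0) hc.le (by linarith) ?_).trans ?_
    · intro x hx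
      have : x = α - 2 := le_antisymm hx.2 hx.1
      rw [this]
      simp
    · simp

theorem state_step (α h a0 b1 L δ η ξ ξ' A : ℝ) (hL : 0 < L) (hη : 0 < η)
    (h1 : α - 2 ≤ ξ) (h2 : ξ < ξ') (h3 : ξ' ≤ α - η) (hA : 0 ≤ A)
    (hS : State α h a0 b1 L δ ξ A) :
    State α h a0 b1 L δ ξ' (A + 2 * (L * (ξ' - ξ) ^ 2 / η)) := by
  obtain ⟨P, c, hc, hcard, ⟨ρ, hρ, hclose⟩, hcov, hvol⟩ := hS
  have hα' : 0 < α - ξ' := by linarith
  have hα : 0 < α - ξ := by linarith
  set e := L * (ξ' - ξ) ^ 2 / η with he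
  have he0 : 0 < e := by
    have : 0 < ξ' - ξ := by linarith
    positivity
  -- the radius
  obtain ⟨r, hr0, hr⟩ : ∃ r > 0, volume (cthickening r (U P c ξ (α - 2) ξ)) ≤
      ENNReal.ofReal (A + e) := by
    have ht := tendsto_measure_cthickening_of_isCompact (μ := (volume : Measure (ℝ × ℝ)))
      (U_compact P c ξ (α - 2) ξ)
    have hlt : volume (U P c ξ (α - 2) ξ) < ENNReal.ofReal (A + e) := by
      refine lt_of_le_of_lt hvol ?_
      rw [ENNReal.ofReal_lt_ofReal_iff (by linarith)]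
      linarith
    have hev := ht.eventually_lt_const hlt
    rw [Metric.eventually_nhds_iff] at hev
    obtain ⟨r0, hr0, hr⟩ := hev
    refine ⟨r0 / 2, by linarith, (hr ?_).le⟩
    rw [Real.dist_eq, sub_zero, abs_of_pos (by linarith)]
    linarith
  set K := c * (α - ξ) / (α - ξ') with hK
  have hK0 : 0 < K := by positivity
  obtain ⟨N, hN, hNr⟩ := exists_large K (min (r / 2) (δ - ρ)) (lt_min (by linarith) (by linarith))
  have hN' : (0 : ℝ) < N := by exact_mod_cast hN
  set c' := K / N with hc'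
  have hc'0 : 0 < c' := by positivity
  have hc'r : 2 * c' ≤ r := by
    have := lt_of_lt_of_le hNr (min_le_left _ _)
    linarith
  have hc'δ : c' < δ - ρ := lt_of_lt_of_le hNr (min_le_right _ _)
  set P' : Finset (ℝ × ℝ) := (P ×ˢ Finset.range N).image (fun q : (ℝ × ℝ) × ℕ =>
    (q.1.1 + (q.2 : ℝ) / N * c, q.1.2 - (q.2 : ℝ) / N * c * ξ)) with hP'
  have hmem : ∀ p' ∈ P', ∃ p ∈ P, ∃ i < N, p' = (p.1 + (i : ℝ) / N * c, p.2 - (i : ℝ) / N * c * ξ) := by
    intro p' hp'
    rw [hP', Finset.mem_image] at hp'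
    obtain ⟨⟨p, i⟩, hpi, rfl⟩ := hp'
    rw [Finset.mem_product, Finset.mem_range] at hpi
    exact ⟨p, hpi.1, i, hpi.2, rfl⟩
  have hi01 : ∀ i < N, (i : ℝ) / N ∈ Set.Icc (0 : ℝ) 1 := by
    intro i hi
    refine ⟨by positivity, ?_⟩
    rw [div_le_one hN']
    exact_mod_cast hi.le
  have hcard' : (P'.card : ℝ) ≤ P.card * N := by
    have h4 := Finset.card_image_le (s := P ×ˢ Finset.range N) (f := fun q : (ℝ × ℝ) × ℕ =>
      (q.1.1 + (q.2 : ℝ) / N * c, q.1.2 - (q.2 : ℝ) / N * c * ξ))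
    rw [Finset.card_product, Finset.card_range] at h4
    exact_mod_cast h4
  have hcardL : P'.card * c' * (α - ξ') ≤ L := by
    calc P'.card * c' * (α - ξ') ≤ (P.card * N) * c' * (α - ξ') := by gcongr
      _ = P.card * c * (α - ξ) := by
          rw [hc', hK]
          field_simp
      _ ≤ L := hcard
  refine ⟨P', c', hc'0, hcardL, ⟨ρ + c', by linarith, ?_⟩, ?_, ?_⟩
  · intro p' hp' t ht
    obtain ⟨p, hp, i, hi, rfl⟩ := hmem p' hp'
    have h4 := hclose p hp _ (hi01 i hi)
    simp only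
    have h5 : |t * c'| ≤ c' := by
      rw [abs_of_nonneg (mul_nonneg ht.1 hc'0.le)]
      exact mul_le_of_le_one_left hc'0.le ht.2
    have e1 : p.1 + (i : ℝ) / N * c + t * c' - a0 = (p.1 + (i : ℝ) / N * c - a0) + t * c' := by ring
    rw [e1]
    exact (abs_add_le _ _).trans (add_le_add h4 h5)
  · intro x hx y hy
    obtain ⟨p, hp, t, ht, hyt⟩ := hcov x hx y hy
    obtain ⟨i, hi, hi1, hi2⟩ := exists_index N hN t ht
    have hxξ' : 0 < x - ξ' := by linarith [hx.1]
    have hxξ : 0 < x - ξ := by linarith [hx.1]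
    have hpos : 0 < c' * (x - ξ') := mul_pos hc'0 hxξ'
    refine ⟨(p.1 + (i : ℝ) / N * c, p.2 - (i : ℝ) / N * c * ξ), ?_,
      (t - i / N) * c * (x - ξ) / (c' * (x - ξ')), ⟨?_, ?_⟩, ?_⟩
    · rw [hP', Finset.mem_image]
      exact ⟨(p, i), Finset.mem_product.2 ⟨hp, Finset.mem_range.2 hi⟩, rfl⟩
    · exact div_nonneg (mul_nonneg (mul_nonneg (by linarith) hc.le) hxξ.le) hpos.le
    · rw [div_le_one hpos]
      have h4 : (x - ξ) * (α - ξ') ≤ (α - ξ) * (x - ξ') := by
        nlinarith [mul_nonneg (sub_nonneg.2 h2.le) (sub_nonneg.2 hx.1)]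
      calc (t - i / N) * c * (x - ξ) ≤ (1 / N) * c * (x - ξ) := by
            apply mul_le_mul_of_nonneg_right _ hxξ.le
            apply mul_le_mul_of_nonneg_right _ hc.le
            linarith
        _ = c / N / (α - ξ') * ((x - ξ) * (α - ξ')) := by
            field_simp
        _ ≤ c / N / (α - ξ') * ((α - ξ) * (x - ξ')) :=
            mul_le_mul_of_nonneg_left h4 (by positivity)
        _ = c' * (x - ξ') := by
            rw [hc', hK]
            field_simp
    · simp only
      have e1 : (t - i / N) * c * (x - ξ) / (c' * (x - ξ')) * c' * (x - ξ') =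
          (t - i / N) * c * (x - ξ) := by
        rw [mul_assoc, div_mul_cancel₀ _ hpos.ne']
      rw [e1, hyt]
      ring
  · -- area
    have hsub : U P' c' ξ' (α - 2) ξ' ⊆ cthickening r (U P c ξ (α - 2) ξ) ∪ U P' c' ξ' ξ ξ' := by
      rintro z ⟨hz, p', hp', t, ht, hzt⟩
      rcases le_total z.1 ξ with h4 | h4
      · left
        obtain ⟨p, hp, i, hi, rfl⟩ := hmem p' hp'
        apply mem_cthickening_of_dist_le z
          (z.1, p.1 * z.1 + p.2 + (i : ℝ) / N * c * (z.1 - ξ)) r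
        · exact ⟨⟨hz.1, h4⟩, p, hp, (i : ℝ) / N, hi01 i hi, rfl⟩
        · rw [Prod.dist_eq]
          simp only [dist_self]
          apply max_le hr0.le
          rw [Real.dist_eq, hzt]
          simp only
          have e1 : (p.1 + (i : ℝ) / N * c) * z.1 + (p.2 - (i : ℝ) / N * c * ξ) +
              t * c' * (z.1 - ξ') - (p.1 * z.1 + p.2 + (i : ℝ) / N * c * (z.1 - ξ)) =
              t * c' * (z.1 - ξ') := by ring
          rw [e1, abs_mul, abs_of_nonneg (mul_nonneg ht.1 hc'0.le)]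
          have h5 : |z.1 - ξ'| ≤ 2 := by
            rw [abs_le]
            constructor
            · linarith [hz.1]
            · linarith [hz.2]
          have h6 : t * c' ≤ c' := mul_le_of_le_one_left hc'0.le ht.2
          calc t * c' * |z.1 - ξ'| ≤ c' * 2 :=
                mul_le_mul h6 h5 (abs_nonneg _) hc'0.le
            _ ≤ r := by linarith
      · right
        exact ⟨⟨h4, hz.2⟩, p', hp', t, ht, hzt⟩
    refine (measure_mono hsub).trans ((measure_union_le _ _).trans ?_)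
    have h4 : volume (U P' c' ξ' ξ ξ') ≤ ENNReal.ofReal e := by
      refine (U_vol P' c' ξ' ξ ξ' (L * (ξ' - ξ) / η) hc'0.le h2.le ?_).trans ?_
      · intro x hx
        have h5 : |x - ξ'| ≤ ξ' - ξ := by
          rw [abs_le]
          constructor
          · linarith [hx.1]
          · linarith [hx.2]
        have h6 : (P'.card : ℝ) * c' ≤ L / η := by
          rw [le_div_iff₀ hη]
          calc (P'.card : ℝ) * c' * η ≤ P'.card * c' * (α - ξ') := by
                apply mul_le_mul_of_nonneg_left (by linarith) (by positivity)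
            _ ≤ L := hcardL
        calc (P'.card : ℝ) * (c' * |x - ξ'|) = (P'.card * c') * |x - ξ'| := by ring
          _ ≤ (L / η) * (ξ' - ξ) := mul_le_mul h6 h5 (abs_nonneg _) (by positivity)
          _ = L * (ξ' - ξ) / η := by ring
      · apply ENNReal.ofReal_le_ofReal
        rw [he]
        apply le_of_eq
        ring
    calc volume (cthickening r (U P c ξ (α - 2) ξ)) + volume (U P' c' ξ' ξ ξ')
        ≤ ENNReal.ofReal (A + e) + ENNReal.ofReal e := add_le_add hr h4
      _ = ENNReal.ofReal (A + 2 * e) := by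
          rw [← ENNReal.ofReal_add (by linarith) he0.le]
          congr 1
          ring

/-- the Venetian blind lemma -/
theorem blind (α h a0 b1 L δ η ε : ℝ) (hL : 0 < L) (hδ : 0 < δ) (hη : 0 < η) (hη2 : η < 2)
    (hε : 0 < ε) :
    ∃ F : Set (ℝ × ℝ), IsCompact F ∧ volume F ≤ ENNReal.ofReal ε ∧
      ∀ x ∈ Set.Icc α (α + h), ∀ y ∈ Set.Icc (a0 * x + b1) (a0 * x + b1 + L),
        ∃ a, |a - a0| < δ ∧ ∀ x' ∈ Set.Icc (α - 2) (α - η), (x', y + a * (x' - x)) ∈ F := by
  obtain ⟨m, hm, hmε⟩ := exists_large (2 * (L * (2 - η) ^ 2 / η)) ε hε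
  have hm' : (0 : ℝ) < m := by exact_mod_cast hm
  set κ := (2 - η) / m with hκ
  have hκ0 : 0 < κ := div_pos (by linarith) hm'
  have key : ∀ j : ℕ, j ≤ m → State α h a0 b1 L δ (α - 2 + j * κ) (j * (2 * (L * κ ^ 2 / η))) := by
    intro j
    induction j with
    | zero =>
      intro _
      simpa using state_zero α h a0 b1 L δ hL hδ
    | succ j ih =>
      intro hj
      have h1 := ih (by omega)
      have hjm : ((j : ℝ) + 1) * κ ≤ 2 - η := by
        have h2 : ((j : ℝ) + 1) ≤ m := by exact_mod_cast hj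
        calc ((j : ℝ) + 1) * κ ≤ m * κ := mul_le_mul_of_nonneg_right h2 hκ0.le
          _ = 2 - η := by
              rw [hκ]
              field_simp
      have h3 := state_step α h a0 b1 L δ η (α - 2 + j * κ) (α - 2 + (j + 1) * κ)
        (j * (2 * (L * κ ^ 2 / η))) hL hη (by nlinarith [(Nat.cast_nonneg j : (0 : ℝ) ≤ j)])
        (by linarith) (by linarith) (by positivity) h1
      have e1 : α - 2 + ((j : ℝ) + 1) * κ - (α - 2 + j * κ) = κ := by ring
      rw [e1] at h3
      push_cast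
      convert h3 using 1
      ring
  obtain ⟨P, c, hc, -, ⟨ρ, hρ, hclose⟩, hcov, hvol⟩ := key m le_rfl
  have hξ : α - 2 + m * κ = α - η := by
    rw [hκ]
    field_simp
    ring
  rw [hξ] at hcov hvol
  refine ⟨U P c (α - η) (α - 2) (α - η), U_compact _ _ _ _ _, hvol.trans ?_, ?_⟩
  · apply ENNReal.ofReal_le_ofReal
    refine le_of_eq_of_le ?_ hmε.le
    rw [hκ]
    field_simp
  · intro x hx y hy
    obtain ⟨p, hp, t, ht, hyt⟩ := hcov x hx y hy
    refine ⟨p.1 + t * c, lt_of_le_of_lt (hclose p hp t ht) hρ, fun x' hx' => ?_⟩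
    refine ⟨hx', p, hp, t, ht, ?_⟩
    simp only
    rw [hyt]
    ring

end Pool.Agent.J4H86.BES
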