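import Mathlib
import Pool.Agent.J4H86.BES.Blind

set_option autoImplicit false

open MeasureTheory Metric
open scoped ENNReal Topology

namespace Pool.Agent.J4H86.BES

/-- the segment of slope `a` and horizontal extent `2` with right end point `z` -/
def seg (z : ℝ × ℝ) (a : ℝ) : Set (ℝ × ℝ) :=
  {p | p.1 ∈ Set.Icc (z.1 - 2) z.1 ∧ p.2 = z.2 + a * (p.1 - z.1)}

theorem mem_seg_iff (z : ℝ × ℝ) (a : ℝ) (O : Set (ℝ × ℝ)) :
    seg z a ⊆ O ↔ ∀ x ∈ Set.Icc (z.1 - 2) z.1, (x, z.2 + a * (x - z.1)) ∈ O := by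
  constructor
  · intro h x hx
    exact h ⟨hx, rfl⟩
  · rintro h ⟨x, y⟩ ⟨hx, hy⟩
    simp only at hx hy
    rw [hy]
    exact h x hx

theorem level_one (K : Set (ℝ × ℝ)) (hK : IsCompact K) (hK0 : volume K = 0)
    (hK1 : ∀ z ∈ K, z.1 ∈ Set.Icc (0 : ℝ) 1) (a0 δ ε : ℝ) (hδ : 0 < δ) (hε : 0 < ε) :
    ∃ O : Set (ℝ × ℝ), IsOpen O ∧ volume O ≤ ENNReal.ofReal ε ∧
      ∀ z ∈ K, ∃ a, |a - a0| < δ ∧ seg z a ⊆ O := by
  obtain ⟨M, hM0, hM⟩ : ∃ M : ℝ, 0 < M ∧ ∀ z ∈ K, |z.2| ≤ M := by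
    obtain ⟨M, hM⟩ := hK.isBounded.subset_closedBall 0
    refine ⟨max M 1, lt_of_lt_of_le one_pos (le_max_right _ _), fun z hz => ?_⟩
    have h1 := hM hz
    rw [mem_closedBall_zero_iff] at h1
    have h2 : ‖z.2‖ ≤ ‖z‖ := norm_snd_le z
    rw [← Real.norm_eq_abs]
    exact (h2.trans h1).trans (le_max_left _ _)
  -- the neighbourhood of `K`
  obtain ⟨R0, hR0, hR⟩ : ∃ R0 > 0, volume (cthickening R0 K) ≤ ENNReal.ofReal (ε / 4) := by
    have ht := tendsto_measure_cthickening_of_isCompact (μ := (volume : Measure (ℝ × ℝ))) hK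
    rw [hK0] at ht
    have hlt : (0 : ℝ≥0∞) < ENNReal.ofReal (ε / 4) := ENNReal.ofReal_pos.2 (by linarith)
    have hev := ht.eventually_lt_const hlt
    rw [Metric.eventually_nhds_iff] at hev
    obtain ⟨r0, hr0, hr⟩ := hev
    refine ⟨r0 / 2, by linarith, (hr ?_).le⟩
    rw [Real.dist_eq, sub_zero, abs_of_pos (by linarith)]
    linarith
  obtain ⟨n, hn, hnR⟩ := exists_large (2 * (1 + |a0| + δ)) R0 hR0
  have hn' : (0 : ℝ) < n := by exact_mod_cast hn
  set h := 1 / (n : ℝ) with hh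
  have hh0 : 0 < h := by positivity
  have hh1 : h < 2 := by
    rw [hh, div_lt_iff₀ hn']
    have : (1 : ℝ) ≤ n := by exact_mod_cast hn
    linarith
  have hL : 0 < 2 * (M + |a0|) := by
    have := abs_nonneg a0
    linarith
  have hcol : ∀ i : ℕ, ∃ O : Set (ℝ × ℝ), IsOpen O ∧ volume O ≤ ENNReal.ofReal (ε / 2 / n) ∧
      ∀ x ∈ Set.Icc ((i : ℝ) / n) (i / n + h), ∀ y ∈ Set.Icc (a0 * x + -(M + |a0|))
        (a0 * x + -(M + |a0|) + 2 * (M + |a0|)),
        ∃ a, |a - a0| < δ ∧ ∀ x' ∈ Set.Icc ((i : ℝ) / n - 2) (i / n - h),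
          (x', y + a * (x' - x)) ∈ O := by
    intro i
    obtain ⟨F, _, hF2, hF3⟩ := blind ((i : ℝ) / n) h a0 (-(M + |a0|)) (2 * (M + |a0|)) δ h
      (ε / 4 / n) hL hδ hh0 hh1 (by positivity)
    have hlt : volume F < ENNReal.ofReal (ε / 2 / n) := by
      refine lt_of_le_of_lt hF2 ?_
      rw [ENNReal.ofReal_lt_ofReal_iff (by positivity)]
      apply div_lt_div_of_pos_right _ hn'
      linarith
    obtain ⟨O, hO1, hO2, hO3⟩ := Set.exists_isOpen_lt_of_lt F _ hlt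
    refine ⟨O, hO2, hO3.le, fun x hx y hy => ?_⟩
    obtain ⟨a, ha, ha'⟩ := hF3 x hx y hy
    exact ⟨a, ha, fun x' hx' => hO1 (ha' x' hx')⟩
  choose O hO1 hO2 hO3 using hcol
  refine ⟨thickening R0 K ∪ ⋃ i ∈ Finset.range n, O i,
    isOpen_thickening.union (isOpen_biUnion (fun i _ => hO1 i)), ?_, ?_⟩
  · refine (measure_union_le _ _).trans ?_
    have h1 : volume (thickening R0 K) ≤ ENNReal.ofReal (ε / 4) :=
      (measure_mono (thickening_subset_cthickening _ _)).trans hR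
    have h2 : volume (⋃ i ∈ Finset.range n, O i) ≤ ENNReal.ofReal (ε / 2) := by
      refine (measure_biUnion_finset_le _ _).trans ?_
      calc ∑ i ∈ Finset.range n, volume (O i)
          ≤ ∑ i ∈ Finset.range n, ENNReal.ofReal (ε / 2 / n) := Finset.sum_le_sum (fun i _ => hO2 i)
        _ = ENNReal.ofReal (ε / 2) := by
            rw [Finset.sum_const, Finset.card_range, nsmul_eq_mul, ← ENNReal.ofReal_natCast,
              ← ENNReal.ofReal_mul hn'.le]
            congr 1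
            field_simp
    calc volume (thickening R0 K) + volume (⋃ i ∈ Finset.range n, O i)
        ≤ ENNReal.ofReal (ε / 4) + ENNReal.ofReal (ε / 2) := add_le_add h1 h2
      _ = ENNReal.ofReal (ε / 4 + ε / 2) :=
          (ENNReal.ofReal_add (by linarith) (by linarith)).symm
      _ ≤ ENNReal.ofReal ε := ENNReal.ofReal_le_ofReal (by linarith)
  · intro z hz
    have hz1 := hK1 z hz
    have hz2 := hM z hz
    obtain ⟨i, hi, hi1, hi2⟩ := exists_index n hn z.1 hz1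
    have hy : z.2 ∈ Set.Icc (a0 * z.1 + -(M + |a0|)) (a0 * z.1 + -(M + |a0|) + 2 * (M + |a0|)) := by
      have h3 : |a0 * z.1| ≤ |a0| := by
        rw [abs_mul]
        have : |z.1| ≤ 1 := by
          rw [abs_of_nonneg hz1.1]
          exact hz1.2
        nlinarith [abs_nonneg a0]
      rw [abs_le] at hz2 h3
      constructor
      · linarith [h3.2, hz2.1]
      · linarith [h3.1, hz2.2]
    obtain ⟨a, ha, ha'⟩ := hO3 i z.1 ⟨hi1, hi2⟩ z.2 hy
    refine ⟨a, ha, ?_⟩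
    rw [mem_seg_iff]
    intro x hx
    rcases le_or_gt x ((i : ℝ) / n - h) with h4 | h4
    · right
      refine Set.mem_iUnion₂.2 ⟨i, Finset.mem_range.2 hi, ha' x ⟨?_, h4⟩⟩
      linarith [hx.1]
    · left
      rw [mem_thickening_iff]
      refine ⟨z, hz, ?_⟩
      have h5 : |x - z.1| ≤ 2 * h := by
        rw [abs_le]
        constructor
        · have : z.1 ≤ (i : ℝ) / n + h := hi2
          linarith
        · linarith [hx.2]
      have h6 : |a| ≤ |a0| + δ := by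
        have h7 : |a| ≤ |a - a0| + |a0| := by
          have := abs_add_le (a - a0) a0
          rwa [sub_add_cancel] at this
        linarith
      have h7 : 2 * h * (1 + |a0| + δ) < R0 := by
        have e : 2 * h * (1 + |a0| + δ) = 2 * (1 + |a0| + δ) / n := by
          rw [hh]
          ring
        rw [e]
        exact hnR
      have h8 := abs_nonneg a0
      rw [Prod.dist_eq, max_lt_iff]
      constructor
      · simp only
        rw [Real.dist_eq]
        nlinarith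
      · simp only
        rw [Real.dist_eq]
        have e : z.2 + a * (x - z.1) - z.2 = a * (x - z.1) := by ring
        rw [e, abs_mul]
        calc |a| * |x - z.1| ≤ (|a0| + δ) * (2 * h) :=
              mul_le_mul h6 h5 (abs_nonneg _) (by linarith)
          _ < R0 := by nlinarith

theorem level_two (K : Set (ℝ × ℝ)) (hK : IsCompact K) (hK0 : volume K = 0)
    (hK1 : ∀ z ∈ K, z.1 ∈ Set.Icc (0 : ℝ) 1) (ε : ℝ) (hε : 0 < ε) :
    ∃ O : Set (ℝ × ℝ), IsOpen O ∧ volume O ≤ ENNReal.ofReal ε ∧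
      ∀ z ∈ K, ∀ a0 δ : ℝ, 0 < δ → ∃ a, |a - a0| < δ ∧ seg z a ⊆ O := by
  obtain ⟨ε', hε'0, hε'⟩ := ENNReal.exists_pos_sum_of_countable
    (ε := ENNReal.ofReal ε) (by simpa using hε) (ℚ × ℕ)
  choose O hO1 hO2 hO3 using fun q : ℚ × ℕ => level_one K hK hK0 hK1 (q.1 : ℝ)
    (1 / ((q.2 : ℝ) + 1)) (ε' q) (by positivity) (by exact_mod_cast hε'0 q)
  refine ⟨⋃ q, O q, isOpen_iUnion hO1, ?_, ?_⟩
  · refine (measure_iUnion_le _).trans (le_trans (ENNReal.tsum_le_tsum (fun q => ?_)) hε'.le)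
    refine (hO2 q).trans ?_
    rw [ENNReal.ofReal_coe_nnreal]
  · intro z hz a0 δ hδ
    obtain ⟨m, hm⟩ := exists_nat_one_div_lt (show 0 < δ / 2 by linarith)
    obtain ⟨q, hq1, hq2⟩ := exists_rat_btwn (show a0 < a0 + δ / 2 by linarith)
    obtain ⟨a, ha, ha'⟩ := hO3 (q, m) z hz
    refine ⟨a, ?_, ha'.trans (Set.subset_iUnion O (q, m))⟩
    simp only at ha
    have h1 : |(q : ℝ) - a0| < δ / 2 := by
      rw [abs_lt]
      constructor <;> linarith
    have h2 : |a - a0| ≤ |a - q| + |(q : ℝ) - a0| := abs_sub_le _ _ _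
    linarith

/-- the set of good slopes -/
def Gd (N : Set (ℝ × ℝ)) (z : ℝ × ℝ) : Set ℝ := {a | seg z a ⊆ N}

theorem Gd_open (O : Set (ℝ × ℝ)) (hO : IsOpen O) (z : ℝ × ℝ) : IsOpen (Gd O z) := by
  rw [isOpen_iff_mem_nhds]
  intro a0 ha0
  have h1 : ∀ x ∈ Set.Icc (z.1 - 2) z.1, (x, z.2 + a0 * (x - z.1)) ∈ O :=
    (mem_seg_iff z a0 O).1 ha0
  have h2 := isCompact_Icc.eventually_forall_of_forall_eventually (x₀ := a0)
    (K := Set.Icc (z.1 - 2) z.1) (P := fun a x => (x, z.2 + a * (x - z.1)) ∈ O) (by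
      intro x hx
      have hcont : Continuous (fun p : ℝ × ℝ => (p.2, z.2 + p.1 * (p.2 - z.1))) := by fun_prop
      exact hcont.continuousAt.eventually (hO.mem_nhds (h1 x hx)))
  filter_upwards [h2] with a ha
  exact (mem_seg_iff z a O).2 ha

theorem Gd_dense (O : Set (ℝ × ℝ)) (z : ℝ × ℝ)
    (h : ∀ a0 δ : ℝ, 0 < δ → ∃ a, |a - a0| < δ ∧ seg z a ⊆ O) : Dense (Gd O z) := by
  rw [Metric.dense_iff]
  intro a0 δ hδ
  obtain ⟨a, ha, ha'⟩ := h a0 δ hδ
  exact ⟨a, by rwa [Metric.mem_ball, Real.dist_eq], ha'⟩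

/-- the intersection of countably many dense open sets of reals has the cardinality of the
continuum -/
theorem card_comeagre (W : ℕ → Set ℝ) (hW : ∀ k, IsOpen (W k)) (hW' : ∀ k, Dense (W k)) :
    Cardinal.continuum ≤ Cardinal.mk (⋂ k, W k : Set ℝ) := by
  set G : Set ℝ := ⋂ k, W k with hG
  have h1 : ∀ t : ℝ, ∃ a ∈ G, a - t ∈ G := by
    intro t
    have ho : ∀ k, IsOpen ((fun a : ℝ => a - t) ⁻¹' W k) := fun k =>
      (hW k).preimage (by fun_prop)
    have hd : ∀ k, Dense ((fun a : ℝ => a - t) ⁻¹' W k) := by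
      intro k
      exact (hW' k).preimage (Homeomorph.subRight t).isOpenMap
    have h2 := dense_iInter_of_isOpen_nat (fun k => (hW k).inter (ho k))
      (fun k => (hW' k).inter_of_isOpen_left (hd k) (hW k))
    obtain ⟨a, ha⟩ := h2.nonempty
    rw [Set.mem_iInter] at ha
    exact ⟨a, Set.mem_iInter.2 (fun k => (ha k).1), Set.mem_iInter.2 (fun k => (ha k).2)⟩
  have hsurj : Function.Surjective (fun p : G × G => (p.1 : ℝ) - p.2) := by
    intro t
    obtain ⟨a, ha, hb⟩ := h1 t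
    exact ⟨(⟨a, ha⟩, ⟨a - t, hb⟩), by simp⟩
  have h2 := Cardinal.mk_le_of_surjective hsurj
  rw [Cardinal.mk_real, Cardinal.mk_prod, Cardinal.lift_id] at h2
  rcases lt_or_ge (Cardinal.mk G) Cardinal.aleph0 with h3 | h3
  · exfalso
    have h4 := Cardinal.mul_lt_aleph0 h3 h3
    exact absurd (lt_of_le_of_lt h2 h4) (not_lt.2 Cardinal.aleph0_le_continuum)
  · rwa [Cardinal.mul_eq_self h3] at h2

/-- injective selection -/
theorem select (P : Type) (hP : Cardinal.mk P ≤ Cardinal.continuum) (G : P → Set ℝ)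
    (hG : ∀ σ, Cardinal.continuum ≤ Cardinal.mk (G σ)) :
    ∃ F : P → ℝ, Function.Injective F ∧ ∀ σ, F σ ∈ G σ := by
  classical
  obtain ⟨lo, wf, hr⟩ := Cardinal.exists_ord_eq_type_lt P
  have hwf : WellFounded ((· < ·) : P → P → Prop) := wf.wf
  let F : P → ℝ := hwf.fix (fun σ rec =>
    if h : ∃ a ∈ G σ, ∀ τ (hτ : τ < σ), rec τ hτ ≠ a then Classical.choose h else 0)
  have hF : ∀ σ, F σ ∈ G σ ∧ ∀ τ, τ < σ → F τ ≠ F σ := by
    intro σ
    have hex : ∃ a ∈ G σ, ∀ τ, τ < σ → F τ ≠ a := by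
      by_contra hcon
      push Not at hcon
      have h1 : G σ ⊆ F '' (Set.Iio σ) := by
        intro a ha
        obtain ⟨τ, hτ, h2⟩ := hcon a ha
        exact ⟨τ, hτ, h2⟩
      have h2 : Cardinal.mk (G σ) ≤ Cardinal.mk (Set.Iio σ) :=
        (Cardinal.mk_le_mk_of_subset h1).trans Cardinal.mk_image_le
      have h3 : Cardinal.mk (Set.Iio σ) < Cardinal.mk P := Cardinal.mk_Iio_lt σ hr
      exact absurd (((hG σ).trans h2).trans_lt h3) (not_lt.2 hP)
    have hFσ : F σ = if h : ∃ a ∈ G σ, ∀ τ (_ : τ < σ), F τ ≠ a then Classical.choose h else 0 := by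
      show hwf.fix _ σ = _
      rw [WellFounded.fix_eq]
    rw [dif_pos hex] at hFσ
    have h4 := Classical.choose_spec hex
    rw [← hFσ] at h4
    exact h4
  refine ⟨F, ?_, fun σ => (hF σ).1⟩
  intro σ τ hστ
  rcases lt_trichotomy σ τ with h | h | h
  · exact absurd hστ ((hF τ).2 σ h)
  · exact h
  · exact absurd hστ.symm ((hF σ).2 τ h)

end Pool.Agent.J4H86.BES
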