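import Mathlib

set_option autoImplicit false

open MeasureTheory

namespace Pool.Agent.J4H86.BES

/-- the digits in base 3 read in base 4 -/
def g (n : ℕ) : ℕ := Nat.ofDigits 4 (Nat.digits 3 n)

theorem g_rec (m d : ℕ) (hd : d < 3) : g (3 * m + d) = 4 * g m + d := by
  by_cases h : d ≠ 0 ∨ m ≠ 0
  · unfold g
    rw [show 3 * m + d = d + 3 * m by ring, Nat.digits_add 3 (by norm_num) d m hd h,
      Nat.ofDigits_cons]
    exact add_comm _ _
  · push Not at h
    obtain ⟨rfl, rfl⟩ := h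
    simp [g]

theorem g_succ (m : ℕ) : g m + 1 ≤ g (m + 1) := by
  induction m using Nat.strong_induction_on with
  | _ m ih =>
    obtain ⟨q, d, hd, rfl⟩ : ∃ q d, d < 3 ∧ m = 3 * q + d :=
      ⟨m / 3, m % 3, Nat.mod_lt _ (by norm_num), (Nat.div_add_mod m 3).symm⟩
    rcases Nat.lt_or_ge d 2 with h | h
    · rw [show 3 * q + d + 1 = 3 * q + (d + 1) by ring, g_rec q d hd, g_rec q (d + 1) (by omega)]
      omega
    · have hd2 : d = 2 := by omega
      subst hd2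
      rw [show 3 * q + 2 + 1 = 3 * (q + 1) + 0 by ring, g_rec q 2 hd, g_rec (q + 1) 0 (by norm_num)]
      have := ih q (by omega)
      omega

theorem g_add (m j : ℕ) : g m + j ≤ g (m + j) := by
  induction j with
  | zero => simp
  | succ j ih =>
    have := g_succ (m + j)
    rw [show m + (j + 1) = m + j + 1 by ring]
    omega

theorem g_mono {m n : ℕ} (h : m ≤ n) : g m + (n - m) ≤ g n := by
  have := g_add m (n - m)
  rwa [Nat.add_sub_cancel' h] at this

/-- the approximations -/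
noncomputable def a (k : ℕ) (s : ℝ) : ℝ := (g ⌊(3 : ℝ) ^ k * s⌋₊ : ℝ) / 4 ^ k

theorem floor_step (k : ℕ) (s : ℝ) :
    ∃ d, d < 3 ∧ ⌊(3 : ℝ) ^ (k + 1) * s⌋₊ = 3 * ⌊(3 : ℝ) ^ k * s⌋₊ + d := by
  set m := ⌊(3 : ℝ) ^ k * s⌋₊ with hm
  set M := ⌊(3 : ℝ) ^ (k + 1) * s⌋₊ with hM
  rcases le_or_gt 0 s with hs | hs
  · have h0 : 0 ≤ (3 : ℝ) ^ k * s := by positivity
    have h0' : 0 ≤ (3 : ℝ) ^ (k + 1) * s := by positivity
    have h1 : (m : ℝ) ≤ 3 ^ k * s := Nat.floor_le h0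
    have h2 : (3 : ℝ) ^ k * s < m + 1 := Nat.lt_floor_add_one _
    have h3 : (M : ℝ) ≤ 3 ^ (k + 1) * s := Nat.floor_le h0'
    have h4 : 3 * m ≤ M := by
      rw [hM]
      apply Nat.le_floor
      push_cast
      rw [pow_succ]
      linarith
    have h5 : M < 3 * m + 3 := by
      have : (M : ℝ) < 3 * m + 3 := by
        rw [pow_succ] at h3
        linarith
      exact_mod_cast this
    exact ⟨M - 3 * m, by omega, by omega⟩
  · have h1 : m = 0 := Nat.floor_of_nonpos (mul_nonpos_of_nonneg_of_nonpos (by positivity) hs.le)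
    have h2 : M = 0 := Nat.floor_of_nonpos (mul_nonpos_of_nonneg_of_nonpos (by positivity) hs.le)
    exact ⟨0, by norm_num, by rw [h1, h2]⟩

theorem a_step (k : ℕ) (s : ℝ) : a k s ≤ a (k + 1) s ∧ a (k + 1) s ≤ a k s + 2 / 4 ^ (k + 1) := by
  obtain ⟨d, hd, h⟩ := floor_step k s
  unfold a
  rw [h, g_rec _ d hd]
  have hd' : (d : ℝ) ≤ 2 := by
    have : d ≤ 2 := by omega
    exact_mod_cast this
  have h4 : (0 : ℝ) < 4 ^ k := by positivity
  have e : ((4 * g ⌊(3 : ℝ) ^ k * s⌋₊ + d : ℕ) : ℝ) / 4 ^ (k + 1) =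
      (g ⌊(3 : ℝ) ^ k * s⌋₊ : ℝ) / 4 ^ k + d / 4 ^ (k + 1) := by
    push_cast
    rw [pow_succ]
    field_simp
  rw [e]
  constructor
  · have : (0 : ℝ) ≤ d / 4 ^ (k + 1) := by positivity
    linarith
  · have : (d : ℝ) / 4 ^ (k + 1) ≤ 2 / 4 ^ (k + 1) := by
      apply div_le_div_of_nonneg_right hd' (by positivity)
    linarith

theorem a_monotone (s : ℝ) : Monotone (fun k => a k s) :=
  monotone_nat_of_le_succ (fun k => (a_step k s).1)

theorem b_antitone (s : ℝ) : Antitone (fun k => a k s + (2 / 3) / 4 ^ k) := by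
  apply antitone_nat_of_succ_le
  intro k
  have h := (a_step k s).2
  have e : (2 : ℝ) / 4 ^ (k + 1) + (2 / 3) / 4 ^ (k + 1) = (2 / 3) / 4 ^ k := by
    rw [pow_succ]
    field_simp
    norm_num
  linarith

/-- the digit function -/
noncomputable def f (s : ℝ) : ℝ := ⨆ k, a k s

theorem a_le_b (j k : ℕ) (s : ℝ) : a j s ≤ a k s + (2 / 3) / 4 ^ k := by
  rcases le_total j k with h | h
  · have := a_monotone s h
    simp only at this
    have h2 : (0 : ℝ) ≤ (2 / 3) / 4 ^ k := by positivity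
    linarith
  · have := b_antitone s h
    simp only at this
    have h2 : (0 : ℝ) ≤ (2 / 3) / 4 ^ j := by positivity
    linarith

theorem bdd (s : ℝ) : BddAbove (Set.range (fun k => a k s)) :=
  ⟨a 0 s + (2 / 3) / 4 ^ 0, by
    rintro _ ⟨j, rfl⟩
    exact a_le_b j 0 s⟩

theorem a_le_f (k : ℕ) (s : ℝ) : a k s ≤ f s := le_ciSup (bdd s) k

theorem f_le_b (k : ℕ) (s : ℝ) : f s ≤ a k s + (2 / 3) / 4 ^ k := ciSup_le (fun j => a_le_b j k s)

theorem f_mono : Monotone f := by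
  intro s t hst
  apply ciSup_le
  intro k
  refine le_trans ?_ (a_le_f k t)
  unfold a
  apply div_le_div_of_nonneg_right _ (by positivity)
  have h1 : ⌊(3 : ℝ) ^ k * s⌋₊ ≤ ⌊(3 : ℝ) ^ k * t⌋₊ :=
    Nat.floor_mono (mul_le_mul_of_nonneg_left hst (by positivity))
  have h2 := g_mono h1
  have : g ⌊(3 : ℝ) ^ k * s⌋₊ ≤ g ⌊(3 : ℝ) ^ k * t⌋₊ := by omega
  exact_mod_cast this

/-- two points with close values of `f` are close -/
theorem close (k : ℕ) (s t : ℝ) (hs : 0 ≤ s) (hst : s ≤ t) (h : f t - f s ≤ 1 / 4 ^ k) :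
    t - s ≤ 2 / 3 ^ k := by
  by_contra hcon
  have hcon := not_le.1 hcon
  have h3 : (0 : ℝ) < 3 ^ k := by positivity
  have h4 : (0 : ℝ) < 4 ^ k := by positivity
  set m := ⌊(3 : ℝ) ^ k * s⌋₊ with hm
  set M := ⌊(3 : ℝ) ^ k * t⌋₊ with hM
  have h5 : (m : ℝ) ≤ 3 ^ k * s := Nat.floor_le (by positivity)
  have h6 : m + 2 ≤ M := by
    rw [hM]
    apply Nat.le_floor
    push_cast
    have : 2 < 3 ^ k * (t - s) := by
      rw [div_lt_iff₀ h3] at hcon
      linarith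
    nlinarith
  have h7 := g_mono (show m ≤ M by omega)
  have h8 : g m + 2 ≤ g M := by omega
  have h9 : (g m : ℝ) + 2 ≤ g M := by exact_mod_cast h8
  have h10 := f_le_b k s
  have h11 := a_le_f k t
  unfold a at h10 h11
  rw [← hm] at h10
  rw [← hM] at h11
  have h12 : (g m : ℝ) / 4 ^ k + 2 / 4 ^ k ≤ (g M : ℝ) / 4 ^ k := by
    rw [← add_div]
    exact div_le_div_of_nonneg_right h9 h4.le
  have h13 : (2 : ℝ) / 4 ^ k - (2 / 3) / 4 ^ k - 1 / 4 ^ k = (1 / 3) / 4 ^ k := by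
    field_simp
    norm_num
  have h14 : (0 : ℝ) < (1 / 3) / 4 ^ k := by positivity
  linarith

/-- the compact null set of values -/
def C : Set ℝ := {c | ∀ k : ℕ, ∃ m : ℕ, m ≤ 3 ^ k ∧ (g m : ℝ) / 4 ^ k ≤ c ∧
  c ≤ (g m : ℝ) / 4 ^ k + 1 / 4 ^ k}

theorem f_mem (s : ℝ) (hs1 : s ≤ 1) : f s ∈ C := by
  intro k
  refine ⟨⌊(3 : ℝ) ^ k * s⌋₊, ?_, a_le_f k s, ?_⟩
  · have h : (3 : ℝ) ^ k * s ≤ ((3 ^ k : ℕ) : ℝ) := by
      push_cast
      have : (0 : ℝ) < 3 ^ k := by positivity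
      nlinarith
    exact Nat.floor_le_of_le h
  · refine (f_le_b k s).trans ?_
    have : (2 / 3 : ℝ) / 4 ^ k ≤ 1 / 4 ^ k := by
      apply div_le_div_of_nonneg_right (by norm_num) (by positivity)
    unfold a
    linarith

theorem C_eq : C = ⋂ k : ℕ, ⋃ m ∈ Finset.range (3 ^ k + 1),
    Set.Icc ((g m : ℝ) / 4 ^ k) ((g m : ℝ) / 4 ^ k + 1 / 4 ^ k) := by
  ext c
  simp only [C, Set.mem_ofPred_eq, Set.mem_iInter, Set.mem_iUnion, Finset.mem_range, Set.mem_Icc]
  constructor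
  · intro h k
    obtain ⟨m, h1, h2, h3⟩ := h k
    exact ⟨m, by omega, h2, h3⟩
  · intro h k
    obtain ⟨m, h1, h2, h3⟩ := h k
    exact ⟨m, by omega, h2, h3⟩

theorem C_closed : IsClosed C := by
  rw [C_eq]
  apply isClosed_iInter
  intro k
  exact Set.Finite.isClosed_biUnion (Finset.finite_toSet _) (fun m _ => isClosed_Icc)

theorem C_sub : C ⊆ Set.Icc 0 2 := by
  intro c hc
  obtain ⟨m, h1, h2, h3⟩ := hc 0
  have hm : m = 0 ∨ m = 1 := by
    simp at h1
    omega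
  rcases hm with rfl | rfl
  · have : g 0 = 0 := by simp [g]
    rw [this] at h2 h3
    simp at h2 h3
    exact ⟨h2, by linarith⟩
  · have : g 1 = 1 := by simp [g]
    rw [this] at h2 h3
    simp at h2 h3
    exact ⟨by linarith, by linarith⟩

theorem C_compact : IsCompact C := isCompact_Icc.of_isClosed_subset C_closed C_sub

theorem C_null : volume C = 0 := by
  have h1 : ∀ k : ℕ, volume C ≤ ENNReal.ofReal ((3 ^ k + 1) * (1 / 4 ^ k)) := by
    intro k
    rw [C_eq]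
    refine (measure_mono (Set.iInter_subset _ k)).trans ?_
    refine (measure_biUnion_finset_le _ _).trans ?_
    have h2 : ∀ m ∈ Finset.range (3 ^ k + 1), volume (Set.Icc ((g m : ℝ) / 4 ^ k)
        ((g m : ℝ) / 4 ^ k + 1 / 4 ^ k)) = ENNReal.ofReal (1 / 4 ^ k) := by
      intro m _
      rw [Real.volume_Icc]
      congr 1
      ring
    rw [Finset.sum_congr rfl h2, Finset.sum_const, Finset.card_range, nsmul_eq_mul,
      ENNReal.ofReal_mul (by positivity)]
    gcongr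
    rw [ENNReal.ofReal_add (by positivity) (by norm_num), ENNReal.ofReal_pow (by norm_num)]
    simp
  have h2 : Filter.Tendsto (fun k : ℕ => ENNReal.ofReal ((3 ^ k + 1) * (1 / 4 ^ k)))
      Filter.atTop (nhds 0) := by
    rw [← ENNReal.ofReal_zero]
    apply ENNReal.tendsto_ofReal
    have h3 : (fun k : ℕ => ((3 : ℝ) ^ k + 1) * (1 / 4 ^ k)) =
        fun k : ℕ => (3 / 4 : ℝ) ^ k + (1 / 4 : ℝ) ^ k := by
      funext k
      rw [div_pow, div_pow, one_pow]
      ring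
    rw [h3]
    have h4 := tendsto_pow_atTop_nhds_zero_of_lt_one (r := (3 / 4 : ℝ)) (by norm_num) (by norm_num)
    have h5 := tendsto_pow_atTop_nhds_zero_of_lt_one (r := (1 / 4 : ℝ)) (by norm_num) (by norm_num)
    simpa using h4.add h5
  exact le_antisymm (ge_of_tendsto' h2 h1) (by simp)

end Pool.Agent.J4H86.BES
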