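import Mathlib
import Pool.Agent.J4H86.BES.Digit

set_option autoImplicit false

open MeasureTheory
open scoped ENNReal

namespace Pool.Agent.J4H86.BES

/-- a set of reals with pairwise distances at most `D` -/
theorem vol_le_of_diam (S : Set ℝ) (D : ℝ) (h : ∀ s ∈ S, ∀ t ∈ S, s ≤ t → t - s ≤ D) :
    volume S ≤ ENNReal.ofReal (2 * D) := by
  rcases S.eq_empty_or_nonempty with h0 | ⟨s0, hs0⟩
  · rw [h0]
    simp
  · have hsub : S ⊆ Set.Icc (s0 - D) (s0 + D) := by
      intro t ht
      rcases le_total s0 t with h1 | h1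
      · have := h s0 hs0 t ht h1
        have := h s0 hs0 s0 hs0 le_rfl
        constructor <;> linarith
      · have := h t ht s0 hs0 h1
        have := h s0 hs0 s0 hs0 le_rfl
        constructor <;> linarith
    refine (measure_mono hsub).trans ?_
    rw [Real.volume_Icc]
    apply ENNReal.ofReal_le_ofReal
    linarith

/-- the kernel `v_+^{-1/2}` -/
noncomputable def H (v : ℝ) : ℝ≥0∞ := if 0 < v then ENNReal.ofReal (1 / Real.sqrt v) else 0

theorem H_le (v : ℝ) : H v ≤ 1 + ∑' k : ℕ,
    (if 0 < v ∧ v ≤ 1 / 4 ^ k then (2 : ℝ≥0∞) ^ (k + 1) else 0) := by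
  unfold H
  split_ifs with hv
  · rcases le_or_gt 1 v with h1 | h1
    · have : ENNReal.ofReal (1 / Real.sqrt v) ≤ 1 := by
        rw [ENNReal.ofReal_le_one, div_le_one (Real.sqrt_pos.2 hv)]
        exact Real.one_le_sqrt.2 h1
      exact this.trans le_self_add
    · -- choose `k` with `4^{-k-1} < v ≤ 4^{-k}`
      obtain ⟨k, hk1, hk2⟩ : ∃ k : ℕ, v ≤ 1 / 4 ^ k ∧ 1 / 4 ^ (k + 1) < v := by
        have hex : ∃ j : ℕ, (1 / 4 : ℝ) ^ j < v := exists_pow_lt_of_lt_one hv (by norm_num)
        classical
        set j := Nat.find hex with hj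
        have hj1 : (1 / 4 : ℝ) ^ j < v := Nat.find_spec hex
        have hj0 : j ≠ 0 := by
          intro h0
          rw [h0] at hj1
          simp at hj1
          linarith
        obtain ⟨k, hk⟩ := Nat.exists_eq_succ_of_ne_zero hj0
        have hk1 : ¬ (1 / 4 : ℝ) ^ k < v := Nat.find_min hex (by omega)
        refine ⟨k, ?_, ?_⟩
        · have := not_lt.1 hk1
          rwa [div_pow, one_pow] at this
        · rw [hk] at hj1
          rwa [div_pow, one_pow] at hj1
      have h2 : ENNReal.ofReal (1 / Real.sqrt v) ≤ (2 : ℝ≥0∞) ^ (k + 1) := by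
        have h3 : 1 / Real.sqrt v ≤ 2 ^ (k + 1) := by
          have h4 : Real.sqrt (1 / 4 ^ (k + 1)) ≤ Real.sqrt v := Real.sqrt_le_sqrt hk2.le
          have h5 : Real.sqrt (1 / 4 ^ (k + 1)) = 1 / 2 ^ (k + 1) := by
            rw [show (1 : ℝ) / 4 ^ (k + 1) = (1 / 2 ^ (k + 1)) ^ 2 by
              rw [div_pow, one_pow, ← pow_mul, mul_comm (k + 1) 2, pow_mul]
              norm_num]
            exact Real.sqrt_sq (by positivity)
          rw [h5] at h4
          rw [div_le_iff₀ (Real.sqrt_pos.2 hv)]
          rw [div_le_iff₀ (by positivity)] at h4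
          linarith
        calc ENNReal.ofReal (1 / Real.sqrt v) ≤ ENNReal.ofReal (2 ^ (k + 1)) :=
              ENNReal.ofReal_le_ofReal h3
          _ = 2 ^ (k + 1) := by
              rw [ENNReal.ofReal_pow (by norm_num)]
              simp
      have h3 : (if 0 < v ∧ v ≤ 1 / 4 ^ k then (2 : ℝ≥0∞) ^ (k + 1) else 0) ≤ ∑' k : ℕ,
          (if 0 < v ∧ v ≤ 1 / 4 ^ k then (2 : ℝ≥0∞) ^ (k + 1) else 0) := ENNReal.le_tsum k
      rw [if_pos ⟨hv, hk1⟩] at h3
      exact (h2.trans h3).trans le_add_self
  · exact zero_le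

theorem f_meas : Measurable f := f_mono.measurable

theorem H_int (τ : ℝ) : ∫⁻ s in Set.Icc (0 : ℝ) 1, H (τ - f s) ≤ 25 := by
  have hm : ∀ k : ℕ, MeasurableSet {s : ℝ | 0 < τ - f s ∧ τ - f s ≤ 1 / 4 ^ k} := by
    intro k
    have h1 : Measurable (fun s => τ - f s) := measurable_const.sub f_meas
    exact (measurableSet_lt measurable_const h1).inter (measurableSet_le h1 measurable_const)
  calc ∫⁻ s in Set.Icc (0 : ℝ) 1, H (τ - f s) ≤ ∫⁻ s in Set.Icc (0 : ℝ) 1, (1 + ∑' k : ℕ,
        (if 0 < τ - f s ∧ τ - f s ≤ 1 / 4 ^ k then (2 : ℝ≥0∞) ^ (k + 1) else 0)) :=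
        lintegral_mono (fun s => H_le _)
    _ = (∫⁻ s in Set.Icc (0 : ℝ) 1, (1 : ℝ≥0∞)) + ∑' k : ℕ, ∫⁻ s in Set.Icc (0 : ℝ) 1,
        (if 0 < τ - f s ∧ τ - f s ≤ 1 / 4 ^ k then (2 : ℝ≥0∞) ^ (k + 1) else 0) := by
        rw [lintegral_add_left measurable_const, lintegral_tsum]
        intro k
        exact (Measurable.ite (hm k) measurable_const measurable_const).aemeasurable
    _ ≤ 1 + ∑' k : ℕ, (8 : ℝ≥0∞) * ENNReal.ofReal ((2 / 3) ^ k) := by
        gcongr with k
        · simp
        · have e : ∀ s, (if 0 < τ - f s ∧ τ - f s ≤ 1 / 4 ^ k then (2 : ℝ≥0∞) ^ (k + 1) else 0) =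
              Set.indicator {s : ℝ | 0 < τ - f s ∧ τ - f s ≤ 1 / 4 ^ k}
                (fun _ => (2 : ℝ≥0∞) ^ (k + 1)) s := by
            intro s
            rw [Set.indicator_apply]
            rfl
          simp_rw [e]
          rw [lintegral_indicator (hm k), setLIntegral_const, Measure.restrict_apply (hm k)]
          have h2 : volume ({s : ℝ | 0 < τ - f s ∧ τ - f s ≤ 1 / 4 ^ k} ∩ Set.Icc 0 1) ≤
              ENNReal.ofReal (2 * (2 / 3 ^ k)) := by
            apply vol_le_of_diam
            rintro s ⟨hs, hs'⟩ t ⟨ht, ht'⟩ hst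
            apply close k s t hs'.1 hst
            linarith [hs.2, ht.1]
          calc (2 : ℝ≥0∞) ^ (k + 1) *
                volume ({s : ℝ | 0 < τ - f s ∧ τ - f s ≤ 1 / 4 ^ k} ∩ Set.Icc 0 1)
              ≤ (2 : ℝ≥0∞) ^ (k + 1) * ENNReal.ofReal (2 * (2 / 3 ^ k)) := by gcongr
            _ = 8 * ENNReal.ofReal ((2 / 3) ^ k) := by
                have e1 : (2 : ℝ≥0∞) ^ (k + 1) = ENNReal.ofReal (2 ^ (k + 1)) := by
                  rw [ENNReal.ofReal_pow (by norm_num)]
                  simp
                have e2 : (8 : ℝ≥0∞) = ENNReal.ofReal 8 := by simp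
                rw [e1, e2, ← ENNReal.ofReal_mul (by positivity), ← ENNReal.ofReal_mul (by norm_num)]
                congr 1
                rw [div_pow, pow_succ]
                field_simp
                norm_num
    _ = 25 := by
        rw [ENNReal.tsum_mul_left, ← ENNReal.ofReal_tsum_of_nonneg (fun k => by positivity)
          (summable_geometric_of_lt_one (by norm_num) (by norm_num)),
          tsum_geometric_of_lt_one (by norm_num) (by norm_num)]
        have : (1 - 2 / 3 : ℝ)⁻¹ = 3 := by norm_num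
        rw [this]
        have e3 : ENNReal.ofReal 3 = 3 := by simp
        rw [e3]
        norm_num

/-- the set where a shifted square lies in a short interval -/
theorem vol_sq (m u w : ℝ) (hw : 0 ≤ w) :
    volume {x : ℝ | u ≤ (x + m) ^ 2 ∧ (x + m) ^ 2 ≤ u + w} ≤ ENNReal.ofReal (2 * w) * H (u + w) := by
  unfold H
  split_ifs with h
  · set R := Real.sqrt (u + w) with hR
    set r := Real.sqrt (max u 0) with hr
    have hR0 : 0 < R := Real.sqrt_pos.2 h
    have hR2 : R ^ 2 = u + w := Real.sq_sqrt h.le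
    have hr0 : 0 ≤ r := Real.sqrt_nonneg _
    have hr2 : r ^ 2 = max u 0 := Real.sq_sqrt (le_max_right _ _)
    have hrR : r ≤ R := Real.sqrt_le_sqrt (max_le (by linarith) h.le)
    have hsub : {x : ℝ | u ≤ (x + m) ^ 2 ∧ (x + m) ^ 2 ≤ u + w} ⊆
        Set.Icc (-m - R) (-m - r) ∪ Set.Icc (-m + r) (-m + R) := by
      rintro x ⟨h1, h2⟩
      have h3 : |x + m| ≤ R := by
        apply abs_le_of_sq_le_sq _ hR0.le
        rw [hR2]
        exact h2
      have h4 : r ≤ |x + m| := by
        apply le_of_sq_le_sq _ (abs_nonneg _) |> fun h => h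
        rw [sq_abs, hr2]
        exact max_le h1 (sq_nonneg _)
      rcases le_total 0 (x + m) with h5 | h5
      · rw [abs_of_nonneg h5] at h3 h4
        right
        constructor <;> linarith
      · rw [abs_of_nonpos h5] at h3 h4
        left
        constructor <;> linarith
    refine (measure_mono hsub).trans ((measure_union_le _ _).trans ?_)
    rw [Real.volume_Icc, Real.volume_Icc, ← ENNReal.ofReal_add (by linarith) (by linarith),
      ← ENNReal.ofReal_mul (by linarith)]
    apply ENNReal.ofReal_le_ofReal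
    have h6 : (R - r) * R ≤ w := by
      have h7 : (R - r) * R ≤ (R - r) * (R + r) :=
        mul_le_mul_of_nonneg_left (by linarith) (by linarith)
      have h8 : (R - r) * (R + r) = R ^ 2 - r ^ 2 := by ring
      have h9 : u ≤ max u 0 := le_max_left _ _
      rw [h8, hR2, hr2] at h7
      linarith
    have h7 : R - r ≤ w / R := by
      rw [le_div_iff₀ hR0]
      exact h6
    have h8 : 2 * w * (1 / R) = 2 * (w / R) := by ring
    rw [h8]
    linarith
  · have hsub : {x : ℝ | u ≤ (x + m) ^ 2 ∧ (x + m) ^ 2 ≤ u + w} ⊆ {-m} := by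
      rintro x ⟨_, h2⟩
      have h3 : (x + m) ^ 2 = 0 := le_antisymm (h2.trans (not_lt.1 h)) (sq_nonneg _)
      have h4 : x + m = 0 := by simpa using h3
      rw [Set.mem_singleton_iff]
      linarith
    refine (measure_mono hsub).trans ?_
    simp

/-- the part of the parameter square which is mapped to a strip -/
def A (n1 n2 c w : ℝ) : Set (ℝ × ℝ) :=
  {p | p.1 ∈ Set.Icc (0 : ℝ) 1 ∧ p.2 ∈ Set.Icc (0 : ℝ) 1 ∧ c ≤ n1 * p.1 + n2 * (p.1 ^ 2 + f p.2) ∧
    n1 * p.1 + n2 * (p.1 ^ 2 + f p.2) ≤ c + w}

theorem A_meas (n1 n2 c w : ℝ) : MeasurableSet (A n1 n2 c w) := by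
  have h1 : Measurable (fun p : ℝ × ℝ => n1 * p.1 + n2 * (p.1 ^ 2 + f p.2)) := by
    have := f_meas
    fun_prop
  have h2 : MeasurableSet {p : ℝ × ℝ | p.1 ∈ Set.Icc (0 : ℝ) 1} := measurable_fst measurableSet_Icc
  have h3 : MeasurableSet {p : ℝ × ℝ | p.2 ∈ Set.Icc (0 : ℝ) 1} := measurable_snd measurableSet_Icc
  exact h2.inter (h3.inter ((measurableSet_le measurable_const h1).inter
    (measurableSet_le h1 measurable_const)))

theorem tube (n1 n2 c w : ℝ) (hn : n1 ^ 2 + n2 ^ 2 = 1) (hw : 0 ≤ w) :
    volume (A n1 n2 c w) ≤ ENNReal.ofReal (200 * w) := by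
  rw [Measure.volume_eq_prod, Measure.prod_apply_symm (A_meas n1 n2 c w)]
  rcases le_or_gt (1 / 4) |n2| with h | h
  · -- flat strips
    have hn2 : n2 ≠ 0 := by
      intro h0
      rw [h0, abs_zero] at h
      norm_num at h
    have hw' : w / |n2| ≤ 4 * w := by
      rw [div_le_iff₀ (by linarith)]
      nlinarith
    set w' := w / |n2| with hw'def
    have hw'0 : 0 ≤ w' := by positivity
    obtain ⟨T, hT⟩ : ∃ T : ℝ, ∀ x s : ℝ, c ≤ n1 * x + n2 * (x ^ 2 + f s) →
        n1 * x + n2 * (x ^ 2 + f s) ≤ c + w →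
        T - f s ≤ (x + n1 / (2 * n2)) ^ 2 ∧ (x + n1 / (2 * n2)) ^ 2 ≤ T - f s + w' := by
      have e : ∀ x s : ℝ, (x + n1 / (2 * n2)) ^ 2 =
          (n1 * x + n2 * (x ^ 2 + f s)) / n2 + (n1 / (2 * n2)) ^ 2 - f s := by
        intro x s
        field_simp
        ring
      rcases lt_or_gt_of_ne hn2 with h0 | h0
      · refine ⟨(c + w) / n2 + (n1 / (2 * n2)) ^ 2, fun x s h1 h2 => ?_⟩
        rw [e x s]
        have h3 : (c + w) / n2 ≤ (n1 * x + n2 * (x ^ 2 + f s)) / n2 :=
          div_le_div_of_nonpos_of_le h0.le h2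
        have h4 : (n1 * x + n2 * (x ^ 2 + f s)) / n2 ≤ c / n2 :=
          div_le_div_of_nonpos_of_le h0.le h1
        have h5 : (c + w) / n2 + w' = c / n2 := by
          rw [hw'def, abs_of_neg h0]
          field_simp
          ring
        constructor <;> linarith
      · refine ⟨c / n2 + (n1 / (2 * n2)) ^ 2, fun x s h1 h2 => ?_⟩
        rw [e x s]
        have h3 : c / n2 ≤ (n1 * x + n2 * (x ^ 2 + f s)) / n2 :=
          div_le_div_of_nonneg_right h1 h0.le
        have h4 : (n1 * x + n2 * (x ^ 2 + f s)) / n2 ≤ (c + w) / n2 :=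
          div_le_div_of_nonneg_right h2 h0.le
        have h5 : c / n2 + w' = (c + w) / n2 := by
          rw [hw'def, abs_of_pos h0]
          field_simp
        constructor <;> linarith
    calc ∫⁻ s, volume ((fun x => (x, s)) ⁻¹' A n1 n2 c w)
        ≤ ∫⁻ s, Set.indicator (Set.Icc (0 : ℝ) 1)
            (fun s => ENNReal.ofReal (2 * w') * H (T + w' - f s)) s := by
          refine lintegral_mono (fun s => ?_)
          by_cases hs : s ∈ Set.Icc (0 : ℝ) 1
          · rw [Set.indicator_of_mem hs]
            have h1 := vol_sq (n1 / (2 * n2)) (T - f s) w' hw'0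
            rw [show T - f s + w' = T + w' - f s by ring] at h1
            refine (measure_mono ?_).trans h1
            rintro x ⟨_, _, h3, h4⟩
            have := hT x s h3 h4
            refine ⟨this.1, ?_⟩
            linarith [this.2]
          · rw [Set.indicator_of_notMem hs]
            have : (fun x => (x, s)) ⁻¹' A n1 n2 c w = ∅ := by
              ext x
              simp only [Set.mem_preimage, Set.mem_empty_iff_false, iff_false]
              rintro ⟨_, h2, _⟩
              exact hs h2
            rw [this]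
            simp
      _ = ENNReal.ofReal (2 * w') * ∫⁻ s in Set.Icc (0 : ℝ) 1, H (T + w' - f s) := by
          rw [lintegral_indicator measurableSet_Icc, lintegral_const_mul' _ _ ENNReal.ofReal_ne_top]
      _ ≤ ENNReal.ofReal (2 * w') * 25 := by
          gcongr
          exact H_int (T + w')
      _ ≤ ENNReal.ofReal (200 * w) := by
          have e : (25 : ℝ≥0∞) = ENNReal.ofReal 25 := by simp
          rw [e, ← ENNReal.ofReal_mul (by positivity)]
          apply ENNReal.ofReal_le_ofReal
          linarith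
  · -- steep strips
    have hn1 : 19 / 20 ≤ |n1| := by
      have h1 : n2 ^ 2 < (1 / 4) ^ 2 := sq_lt_sq' (by linarith [neg_abs_le n2]) (lt_of_abs_lt h)
      by_contra hcon
      have hcon := not_le.1 hcon
      have h2 : n1 ^ 2 < (19 / 20) ^ 2 := sq_lt_sq' (by linarith [neg_abs_le n1]) (lt_of_abs_lt hcon)
      norm_num at h1 h2
      linarith
    calc ∫⁻ s, volume ((fun x => (x, s)) ⁻¹' A n1 n2 c w)
        ≤ ∫⁻ s, Set.indicator (Set.Icc (0 : ℝ) 1) (fun _ => ENNReal.ofReal (200 * w)) s := by
          refine lintegral_mono (fun s => ?_)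
          by_cases hs : s ∈ Set.Icc (0 : ℝ) 1
          · rw [Set.indicator_of_mem hs]
            have h1 : volume ((fun x => (x, s)) ⁻¹' A n1 n2 c w) ≤
                ENNReal.ofReal (2 * (3 * w)) := by
              apply vol_le_of_diam
              rintro x ⟨hx, _, h3, h4⟩ y ⟨hy, _, h5, h6⟩ hxy
              simp only at hx hy h3 h4 h5 h6
              have h7 : |(y - x) * (n1 + n2 * (x + y))| ≤ w := by
                have e : (y - x) * (n1 + n2 * (x + y)) =
                    (n1 * y + n2 * (y ^ 2 + f s)) - (n1 * x + n2 * (x ^ 2 + f s)) := by ring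
                rw [e, abs_le]
                constructor <;> linarith
              rw [abs_mul, abs_of_nonneg (by linarith : (0 : ℝ) ≤ y - x)] at h7
              have h8 : 1 / 3 ≤ |n1 + n2 * (x + y)| := by
                have h9 : |n2 * (x + y)| ≤ 1 / 2 := by
                  rw [abs_mul, abs_of_nonneg (by linarith [hx.1, hy.1] : (0 : ℝ) ≤ x + y)]
                  have := hx.2
                  have := hy.2
                  have := hx.1
                  have := hy.1
                  nlinarith [abs_nonneg n2]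
                have h10 : |n1| ≤ |n1 + n2 * (x + y)| + |n2 * (x + y)| := by
                  have := abs_sub (n1 + n2 * (x + y)) (n2 * (x + y))
                  simpa using this
                linarith
              have h9 : (y - x) * (1 / 3) ≤ (y - x) * |n1 + n2 * (x + y)| :=
                mul_le_mul_of_nonneg_left h8 (by linarith)
              linarith
            refine h1.trans (ENNReal.ofReal_le_ofReal ?_)
            linarith
          · rw [Set.indicator_of_notMem hs]
            have : (fun x => (x, s)) ⁻¹' A n1 n2 c w = ∅ := by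
              ext x
              simp only [Set.mem_preimage, Set.mem_empty_iff_false, iff_false]
              rintro ⟨_, h2, _⟩
              exact hs h2
            rw [this]
            simp
      _ = ENNReal.ofReal (200 * w) := by
          rw [lintegral_indicator measurableSet_Icc]
          simp

end Pool.Agent.J4H86.BES
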