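import Mathlib
import Pool.Agent.J4H86.BES.Level
import Pool.Agent.J4H86.BES.Tube
import Pool.Agent.Results.MP_6b55e5_an.RogersQ2

set_option autoImplicit false

open MeasureTheory Metric
open scoped ENNReal Topology
open Pool.Agent.Results.MP_6b55e5_an.RogersQ2 (Plane IsStrip IsBesicovitch HasStripCover PropertyS)

namespace Pool.Agent.J4H86.BES

/-- the compact null set that is hard to cover -/
def K : Set (ℝ × ℝ) := (fun p : ℝ × ℝ => (p.1, p.1 ^ 2 + p.2)) '' (Set.Icc (0 : ℝ) 1 ×ˢ C)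

theorem K_compact : IsCompact K := by
  apply (isCompact_Icc.prod C_compact).image
  fun_prop

theorem K_fst : ∀ z ∈ K, z.1 ∈ Set.Icc (0 : ℝ) 1 := by
  rintro _ ⟨p, hp, rfl⟩
  exact hp.1

theorem K_snd : ∀ z ∈ K, z.2 ∈ Set.Icc (0 : ℝ) 3 := by
  rintro _ ⟨p, hp, rfl⟩
  have h1 := C_sub hp.2
  have h2 := hp.1
  constructor
  · simp only
    nlinarith [h1.1, sq_nonneg p.1]
  · simp only
    nlinarith [h1.2, h2.1, h2.2]

theorem K_null : volume K = 0 := by
  have hm : MeasurableSet K := K_compact.isClosed.measurableSet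
  rw [Measure.volume_eq_prod, Measure.measure_prod_null hm]
  refine Filter.Eventually.of_forall (fun x => ?_)
  show volume (Prod.mk x ⁻¹' K) = 0
  refine measure_mono_null (t := (fun y => y + -(x ^ 2)) ⁻¹' C) ?_ ?_
  · rintro y ⟨p, hp, hpy⟩
    simp only [Prod.mk.injEq] at hpy
    show y + -(x ^ 2) ∈ C
    rw [← hpy.1, ← hpy.2]
    have e : p.1 ^ 2 + p.2 + -(p.1 ^ 2) = p.2 := by ring
    rw [e]
    exact hp.2
  · rw [measure_preimage_add_right]
    exact C_null

/-- `K` cannot be covered by strips of total width less than `1 / 200` -/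
theorem K_uncov (σ : ℕ → (ℝ × ℝ) × (ℝ × ℝ)) (h1 : ∀ i, (σ i).1.1 ^ 2 + (σ i).1.2 ^ 2 = 1)
    (h2 : ∀ i, 0 ≤ (σ i).2.2)
    (h3 : ∑' i, ENNReal.ofReal (σ i).2.2 < ENNReal.ofReal (1 / 200)) :
    ∃ z ∈ K, ∀ i, ¬ ((σ i).2.1 ≤ (σ i).1.1 * z.1 + (σ i).1.2 * z.2 ∧
      (σ i).1.1 * z.1 + (σ i).1.2 * z.2 ≤ (σ i).2.1 + (σ i).2.2) := by
  by_contra hcon
  simp only [not_exists, not_and, not_forall, not_not] at hcon
  have hsub : Set.Icc (0 : ℝ) 1 ×ˢ Set.Icc (0 : ℝ) 1 ⊆
      ⋃ i, A (σ i).1.1 (σ i).1.2 (σ i).2.1 (σ i).2.2 := by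
    rintro p ⟨hp1, hp2⟩
    obtain ⟨i, hi, hi'⟩ := hcon (p.1, p.1 ^ 2 + f p.2) ⟨(p.1, f p.2), ⟨hp1, f_mem p.2 hp2.2⟩, rfl⟩
    exact Set.mem_iUnion.2 ⟨i, hp1, hp2, hi, hi'⟩
  have hvol : volume (Set.Icc (0 : ℝ) 1 ×ˢ Set.Icc (0 : ℝ) 1) = 1 := by
    rw [Measure.volume_eq_prod, Measure.prod_prod]
    simp
  have key : (1 : ℝ≥0∞) < 1 := by
    calc (1 : ℝ≥0∞) = volume (Set.Icc (0 : ℝ) 1 ×ˢ Set.Icc (0 : ℝ) 1) := hvol.symm
      _ ≤ ∑' i, volume (A (σ i).1.1 (σ i).1.2 (σ i).2.1 (σ i).2.2) :=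
          (measure_mono hsub).trans (measure_iUnion_le _)
      _ ≤ ∑' i, ENNReal.ofReal (200 * (σ i).2.2) :=
          ENNReal.tsum_le_tsum (fun i => tube _ _ _ _ (h1 i) (h2 i))
      _ = ENNReal.ofReal 200 * ∑' i, ENNReal.ofReal (σ i).2.2 := by
          rw [← ENNReal.tsum_mul_left]
          refine tsum_congr (fun i => ?_)
          rw [ENNReal.ofReal_mul (by norm_num)]
      _ < ENNReal.ofReal 200 * ENNReal.ofReal (1 / 200) :=
          ENNReal.mul_lt_mul_right (by simp) ENNReal.ofReal_ne_top h3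
      _ = 1 := by
          rw [← ENNReal.ofReal_mul (by norm_num)]
          norm_num
  exact lt_irrefl _ key

/-- codes of strip coverings -/
def Code : Type := {σ : ℕ → (ℝ × ℝ) × (ℝ × ℝ) // (∀ i, (σ i).1.1 ^ 2 + (σ i).1.2 ^ 2 = 1) ∧
  (∀ i, 0 ≤ (σ i).2.2) ∧ ∑' i, ENNReal.ofReal (σ i).2.2 < ENNReal.ofReal (1 / 200)}

theorem Code_card : Cardinal.mk Code ≤ Cardinal.continuum := by
  refine (Cardinal.mk_subtype_le _).trans ?_
  rw [Cardinal.mk_arrow]
  simp only [Cardinal.mk_prod, Cardinal.mk_real, Cardinal.lift_id, Cardinal.continuum_mul_self,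
    Cardinal.mk_nat, Cardinal.continuum_power_aleph0, le_refl]

/-- the open sets -/
theorem opens : ∃ O : ℕ → Set (ℝ × ℝ), (∀ k, IsOpen (O k)) ∧ volume (⋂ k, O k) = 0 ∧
    ∀ z ∈ K, ∀ k, Dense (Gd (O k) z) := by
  choose O hO1 hO2 hO3 using fun k : ℕ =>
    level_two K K_compact K_null K_fst (1 / ((k : ℝ) + 1)) (by positivity)
  refine ⟨O, hO1, ?_, fun z hz k => Gd_dense _ _ (fun a0 δ hδ => hO3 k z hz a0 δ hδ)⟩
  have hlim : Filter.Tendsto (fun k : ℕ => ENNReal.ofReal (1 / ((k : ℝ) + 1)))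
      Filter.atTop (nhds 0) := by
    have h1 := ENNReal.tendsto_ofReal (tendsto_one_div_add_atTop_nhds_zero_nat (𝕜 := ℝ))
    rwa [ENNReal.ofReal_zero] at h1
  refine le_antisymm (ge_of_tendsto' hlim (fun k => ?_)) zero_le
  exact (measure_mono (Set.iInter_subset _ k)).trans (hO2 k)

/-- a point of the plane -/
def toPlane (z : ℝ × ℝ) : Plane := !₂[z.1, z.2]

theorem toPlane_zero (z : ℝ × ℝ) : toPlane z 0 = z.1 := by simp [toPlane]
theorem toPlane_one (z : ℝ × ℝ) : toPlane z 1 = z.2 := by simp [toPlane]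

theorem sq_of_norm (e : Plane) (he : ‖e‖ = 1) : e 0 ^ 2 + e 1 ^ 2 = 1 := by
  rw [EuclideanSpace.norm_eq, Real.sqrt_eq_one, Fin.sum_univ_two] at he
  simpa only [Real.norm_eq_abs, sq_abs] using he

theorem norm_of_sq (e : Plane) (he : e 0 ^ 2 + e 1 ^ 2 = 1) : ‖e‖ = 1 := by
  rw [EuclideanSpace.norm_eq, Real.sqrt_eq_one, Fin.sum_univ_two]
  simpa only [Real.norm_eq_abs, sq_abs] using he

/-- encoding of strip coverings -/
theorem encode (E : Set Plane) (h : HasStripCover E (1 / 200)) :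
    ∃ σ : Code, ∀ v ∈ E, ∃ i, (σ.1 i).2.1 ≤ (σ.1 i).1.1 * v 0 + (σ.1 i).1.2 * v 1 ∧
      (σ.1 i).1.1 * v 0 + (σ.1 i).1.2 * v 1 ≤ (σ.1 i).2.1 + (σ.1 i).2.2 := by
  obtain ⟨ι, hι, S, w, hS, hcov, hsum, hlt⟩ := h
  choose u c hu hSeq using fun i => (hS i).2
  have hw : ∀ i, 0 < w i := fun i => (hS i).1
  obtain ⟨g, hg⟩ := exists_injective_nat ι
  set s : ι → (ℝ × ℝ) × (ℝ × ℝ) := fun i => ((u i 0, u i 1), (c i, w i)) with hs
  set pad : ℕ → (ℝ × ℝ) × (ℝ × ℝ) := fun _ => ((1, 0), (0, 0)) with hpad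
  have hcases : ∀ n, (∃ i, g i = n ∧ Function.extend g s pad n = s i) ∨
      Function.extend g s pad n = ((1, 0), (0, 0)) := by
    intro n
    by_cases hn : ∃ i, g i = n
    · obtain ⟨i, hi⟩ := hn
      left
      refine ⟨i, hi, ?_⟩
      rw [← hi, hg.extend_apply]
    · right
      rw [Function.extend_apply' _ _ _ hn]
  refine ⟨⟨Function.extend g s pad, ?_, ?_, ?_⟩, ?_⟩
  · intro n
    rcases hcases n with ⟨i, _, h⟩ | h
    · rw [h]
      exact sq_of_norm (u i) (hu i)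
    · rw [h]
      norm_num
  · intro n
    rcases hcases n with ⟨i, _, h⟩ | h
    · rw [h]
      exact (hw i).le
    · rw [h]
  · have h1 := hg.tsum_eq (f := fun n => ENNReal.ofReal (Function.extend g s pad n).2.2) (by
      intro n hn
      rcases hcases n with ⟨i, hi, _⟩ | h
      · exact ⟨i, hi⟩
      · exfalso
        apply hn
        show ENNReal.ofReal (Function.extend g s pad n).2.2 = 0
        rw [h]
        simp)
    rw [← h1]
    have h2 : ∀ i, ENNReal.ofReal (Function.extend g s pad (g i)).2.2 = ENNReal.ofReal (w i) := by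
      intro i
      rw [hg.extend_apply]
    rw [tsum_congr h2, ← ENNReal.ofReal_tsum_of_nonneg (fun i => (hw i).le) hsum]
    exact (ENNReal.ofReal_lt_ofReal_iff (by norm_num)).2 hlt
  · intro v hv
    obtain ⟨i, hi⟩ := Set.mem_iUnion.1 (hcov hv)
    rw [hSeq i] at hi
    have hin : inner ℝ (u i) v = u i 0 * v 0 + u i 1 * v 1 := by
      simp only [PiLp.inner_apply, Fin.sum_univ_two, RCLike.inner_apply, conj_trivial]
      ring
    refine ⟨g i, ?_⟩
    simp only [hg.extend_apply]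
    simp only [Set.mem_ofPred_eq, hin] at hi
    exact hi

/-- a set containing `K` has no economical strip covering -/
theorem not_cover (E : Set Plane) (hE : ∀ z ∈ K, toPlane z ∈ E) : ¬ HasStripCover E (1 / 200) := by
  intro h
  obtain ⟨σ, hσ⟩ := encode E h
  obtain ⟨z, hz, hz'⟩ := K_uncov σ.1 σ.2.1 σ.2.2.1 σ.2.2.2
  obtain ⟨i, hi⟩ := hσ _ (hE z hz)
  rw [toPlane_zero, toPlane_one] at hi
  exact hz' i hi

/-- the unit segments that end in `z` -/
theorem segment_sub (z : ℝ × ℝ) (e : Plane) (he : ‖e‖ = 1) (h0 : 0 < e 0) (N : Set (ℝ × ℝ))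
    (h : seg z (e 1 / e 0) ⊆ N) :
    ∀ v ∈ segment ℝ (toPlane z - e) (toPlane z - e + e), (v 0, v 1) ∈ N := by
  intro v hv
  rw [segment_eq_image'] at hv
  obtain ⟨θ, ⟨h1, h2⟩, rfl⟩ := hv
  apply h
  have hsq := sq_of_norm e he
  have h3 : e 0 ≤ 1 := by nlinarith [sq_nonneg (e 1)]
  have e0 : (toPlane z - e + θ • (toPlane z - e + e - (toPlane z - e))) 0 =
      z.1 - (1 - θ) * e 0 := by
    simp only [PiLp.add_apply, PiLp.smul_apply, PiLp.sub_apply, smul_eq_mul, toPlane_zero]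
    ring
  have e1 : (toPlane z - e + θ • (toPlane z - e + e - (toPlane z - e))) 1 =
      z.2 - (1 - θ) * e 1 := by
    simp only [PiLp.add_apply, PiLp.smul_apply, PiLp.sub_apply, smul_eq_mul, toPlane_one]
    ring
  rw [e0, e1]
  refine ⟨⟨?_, ?_⟩, ?_⟩
  · simp only
    nlinarith
  · simp only
    nlinarith
  · simp only
    field_simp
    ring

theorem segment_bdd (x e : Plane) (R : ℝ) (hx : ‖x‖ ≤ R) (he : ‖e‖ = 1) :
    ∀ v ∈ segment ℝ x (x + e), ‖v‖ ≤ R + 1 := by
  intro v hv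
  rw [segment_eq_image'] at hv
  obtain ⟨θ, ⟨h1, h2⟩, rfl⟩ := hv
  refine (norm_add_le _ _).trans ?_
  rw [add_sub_cancel_left, norm_smul, he, mul_one, Real.norm_eq_abs, abs_of_nonneg h1]
  linarith

theorem norm_toPlane (z : ℝ × ℝ) (hz : z ∈ K) : ‖toPlane z‖ ≤ 4 := by
  have h1 := K_fst z hz
  have h2 := K_snd z hz
  rw [EuclideanSpace.norm_eq, Fin.sum_univ_two]
  rw [Real.sqrt_le_left (by norm_num)]
  simp only [Real.norm_eq_abs, sq_abs, toPlane_zero, toPlane_one]
  nlinarith [h1.1, h1.2, h2.1, h2.2]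

theorem null_preimage (N : Set (ℝ × ℝ)) (hN : volume N = 0) :
    volume {v : Plane | (v 0, v 1) ∈ N} = 0 := by
  have hmp : MeasurePreserving (fun v : Plane => (v 0, v 1)) volume volume := by
    have h1 := PiLp.volume_preserving_ofLp (Fin 2)
    have h2 := volume_preserving_finTwoArrow ℝ
    exact h2.comp h1
  exact hmp.quasiMeasurePreserving.preimage_null hN

theorem Code_card' : Cardinal.mk (Code × ℝ) ≤ Cardinal.continuum := by
  rw [Cardinal.mk_prod, Cardinal.lift_id, Cardinal.lift_id, Cardinal.mk_real]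
  exact (mul_le_mul' Code_card le_rfl).trans_eq Cardinal.continuum_mul_self

/-- one unit segment for each direction -/
theorem partA : ∃ I : Plane → Set Plane,
    (∀ e : Plane, ‖e‖ = 1 → ∃ x : Plane, I e = segment ℝ x (x + e)) ∧
    (∀ e : Plane, ‖e‖ = 1 → I (-e) = I e) ∧
    IsBesicovitch (⋃ e ∈ {e : Plane | ‖e‖ = 1}, I e) ∧
    ∀ D : Set Plane, Cardinal.mk D < Cardinal.continuum →
      ¬ HasStripCover (⋃ e ∈ {e : Plane | ‖e‖ = 1} \ D, I e) (1 / 200) := by
  classical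
  obtain ⟨O, hO1, hO2, hO3⟩ := opens
  obtain ⟨B, ⟨hBb, hB0, hBs⟩, _⟩ := Pool.Agent.Results.MP_6b55e5_an.RogersQ2.result
  set N : Set (ℝ × ℝ) := ⋂ k, O k with hN
  -- the uncovered points
  choose z hzK hz using fun σ : Code × ℝ => K_uncov σ.1.1 σ.1.2.1 σ.1.2.2.1 σ.1.2.2.2
  obtain ⟨F, hF1, hF2⟩ := select (Code × ℝ) Code_card' (fun σ => ⋂ k, Gd (O k) (z σ))
    (fun σ => card_comeagre _ (fun k => Gd_open _ (hO1 k) _) (fun k => hO3 _ (hzK σ) k))
  have hF3 : ∀ σ, seg (z σ) (F σ) ⊆ N := by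
    intro σ
    exact Set.subset_iInter (fun k => Set.mem_iInter.1 (hF2 σ) k)
  set M : Set Plane := {v : Plane | (v 0, v 1) ∈ N} ∩ closedBall 0 6 ∪ B with hM
  have hx : ∀ e : Plane, ∃ x : Plane, ‖e‖ = 1 → segment ℝ x (x + e) ⊆ M ∧
      (0 < e 0 → ∀ σ, F σ = e 1 / e 0 → toPlane (z σ) ∈ segment ℝ x (x + e)) := by
    intro e
    by_cases he : ‖e‖ = 1
    · by_cases h : 0 < e 0 ∧ ∃ σ, F σ = e 1 / e 0
      · obtain ⟨h0, σ, hσ⟩ := h
        refine ⟨toPlane (z σ) - e, fun _ => ⟨?_, ?_⟩⟩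
        · intro v hv
          left
          refine ⟨segment_sub (z σ) e he h0 N (hσ ▸ hF3 σ) v hv, ?_⟩
          rw [mem_closedBall_zero_iff]
          have h1 : ‖toPlane (z σ) - e‖ ≤ 5 := by
            refine (norm_sub_le _ _).trans ?_
            rw [he]
            have := norm_toPlane (z σ) (hzK σ)
            linarith
          have := segment_bdd _ e 5 h1 he v hv
          linarith
        · intro _ τ hτ
          have hστ : τ = σ := hF1 (hτ.trans hσ.symm)
          rw [hστ, sub_add_cancel]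
          exact right_mem_segment ℝ _ _
      · obtain ⟨x, hx⟩ := hBs e he
        refine ⟨x, fun _ => ⟨hx.trans Set.subset_union_right, fun h0 σ hσ => ?_⟩⟩
        exact absurd ⟨h0, σ, hσ⟩ h
    · exact ⟨0, fun h => absurd h he⟩
  choose x hx1 using hx
  set D : Set Plane := {e | 0 < e 0 ∨ (e 0 = 0 ∧ 0 < e 1)} with hD
  set I : Plane → Set Plane := fun e => if e ∈ D then segment ℝ (x e) (x e + e) else
    segment ℝ (x (-e)) (x (-e) + -e) with hI
  have hneg0 : ∀ e : Plane, (-e) 0 = - e 0 := fun e => rfl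
  have hneg1 : ∀ e : Plane, (-e) 1 = - e 1 := fun e => rfl
  have hDneg : ∀ e : Plane, e ∈ D → -e ∉ D := by
    intro e he hne
    simp only [hD, Set.mem_ofPred_eq, hneg0, hneg1] at he hne
    rcases he with h | h <;> rcases hne with h' | h'
    · linarith
    · linarith [h'.1]
    · linarith [h.1]
    · linarith [h.2, h'.2]
  have hDneg' : ∀ e : Plane, ‖e‖ = 1 → e ∉ D → -e ∈ D := by
    intro e he hne
    have hsq := sq_of_norm e he
    simp only [hD, Set.mem_ofPred_eq, hneg0, hneg1, not_or, not_and, not_lt] at hne ⊢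
    obtain ⟨h1, h2⟩ := hne
    rcases lt_or_eq_of_le h1 with h3 | h3
    · left
      linarith
    · right
      refine ⟨by linarith, ?_⟩
      have h4 := h2 h3
      rcases lt_or_eq_of_le h4 with h5 | h5
      · linarith
      · rw [h3, h5] at hsq
        norm_num at hsq
  have hnorm : ∀ e : Plane, ‖e‖ = 1 → ‖-e‖ = 1 := fun e he => by rwa [norm_neg]
  have hIM : ∀ e : Plane, ‖e‖ = 1 → I e ⊆ M := by
    intro e he
    simp only [hI]
    split_ifs with h
    · exact (hx1 e he).1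
    · exact (hx1 (-e) (hnorm e he)).1
  have hseg : ∀ e : Plane, ‖e‖ = 1 → ∃ y : Plane, I e = segment ℝ y (y + e) := by
    intro e he
    simp only [hI]
    split_ifs with h
    · exact ⟨x e, rfl⟩
    · refine ⟨x (-e) + -e, ?_⟩
      rw [segment_symm, neg_add_cancel_right]
  refine ⟨I, hseg, ?_, ⟨?_, ?_, ?_⟩, ?_⟩
  · intro e he
    by_cases h : e ∈ D
    · have h' := hDneg e h
      simp only [hI, if_pos h, if_neg h', neg_neg]
    · have h' := hDneg' e he h
      simp only [hI, if_pos h', if_neg h]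
  · apply Bornology.IsBounded.subset _ (Set.iUnion₂_subset hIM)
    rw [hM]
    exact (isBounded_closedBall.subset Set.inter_subset_right).union hBb
  · apply measure_mono_null (Set.iUnion₂_subset hIM)
    rw [hM]
    apply measure_union_null _ hB0
    exact measure_mono_null Set.inter_subset_left (null_preimage N hO2)
  · intro e he
    obtain ⟨y, hy⟩ := hseg e he
    refine ⟨y, ?_⟩
    rw [← hy]
    exact Set.subset_biUnion_of_mem (u := fun e => I e) (show e ∈ {e : Plane | ‖e‖ = 1} from he)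
  · intro T hT hcov
    obtain ⟨σ0, hσ⟩ := encode _ hcov
    -- the direction of a code
    set r : ℝ → ℝ := fun t => Real.sqrt (1 + F (σ0, t) ^ 2) with hr
    have hr2 : ∀ t, r t ^ 2 = 1 + F (σ0, t) ^ 2 := fun t => Real.sq_sqrt (by positivity)
    have hr0 : ∀ t, 0 < r t := fun t => Real.sqrt_pos.2 (by positivity)
    set e : ℝ → Plane := fun t => !₂[1 / r t, F (σ0, t) / r t] with he
    have e0 : ∀ t, e t 0 = 1 / r t := fun t => by simp [he]
    have e1 : ∀ t, e t 1 = F (σ0, t) / r t := fun t => by simp [he]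
    have hen : ∀ t, ‖e t‖ = 1 := by
      intro t
      apply norm_of_sq
      have := hr0 t
      rw [e0, e1]
      field_simp
      rw [hr2]
    have h0 : ∀ t, 0 < e t 0 := by
      intro t
      have := hr0 t
      rw [e0]
      positivity
    have hsl : ∀ t, F (σ0, t) = e t 1 / e t 0 := by
      intro t
      have := hr0 t
      rw [e0, e1]
      field_simp
    obtain ⟨t, ht⟩ : ∃ t, e t ∉ T := by
      by_contra hcon
      simp only [not_exists, not_not] at hcon
      have hinj : Function.Injective (fun t : ℝ => (⟨e t, hcon t⟩ : T)) := by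
        intro s t hst
        have h1 : e s = e t := congrArg Subtype.val hst
        have h2 : F (σ0, s) = F (σ0, t) := by rw [hsl s, hsl t, h1]
        have h3 := hF1 h2
        exact (Prod.mk.inj h3).2
      have h4 := Cardinal.mk_le_of_injective hinj
      rw [Cardinal.mk_real] at h4
      exact absurd hT (not_lt.2 h4)
    have hmem : toPlane (z (σ0, t)) ∈ I (e t) := by
      have hDe : e t ∈ D := Or.inl (h0 t)
      simp only [hI, if_pos hDe]
      exact (hx1 (e t) (hen t)).2 (h0 t) (σ0, t) (hsl t)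
    obtain ⟨i, hi⟩ := hσ (toPlane (z (σ0, t)))
      (Set.mem_biUnion (show e t ∈ {e : Plane | ‖e‖ = 1} \ T from ⟨hen t, ht⟩) hmem)
    rw [toPlane_zero, toPlane_one] at hi
    exact hz (σ0, t) i hi

end Pool.Agent.J4H86.BES
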