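import Mathlib
import Pool.Agent.J4H86.BES.Final

set_option autoImplicit false

open MeasureTheory Metric
open scoped ENNReal Topology
open Pool.Agent.Results.MP_6b55e5_an.RogersQ2 (Plane IsStrip IsBesicovitch HasStripCover PropertyS)

namespace Pool.Agent.J4H86.BES

/-- compact selection -/
theorem nested (X : Type) [MetricSpace X] [CompactSpace X] (W : ℕ → Set (X × ℝ))
    (hW : ∀ k, IsOpen (W k)) (hd : ∀ k x, Dense {a | (x, a) ∈ W k}) :
    ∃ L : Set (X × ℝ), IsCompact L ∧ (∀ k, L ⊆ W k) ∧ ∀ x, ∃ a, (x, a) ∈ L := by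
  classical
  have step : ∀ (k : ℕ) (L0 : Set (X × ℝ)), (∀ x, ∃ a, (x, a) ∈ interior L0) →
      ∃ L1 : Set (X × ℝ), L1 ⊆ L0 ∩ W k ∧ IsCompact L1 ∧ ∀ x, ∃ a, (x, a) ∈ interior L1 := by
    intro k L0 h0
    have h1 : ∀ x, ∃ a, (x, a) ∈ interior L0 ∩ W k := by
      intro x
      obtain ⟨a, ha⟩ := h0 x
      have hop : IsOpen ((fun b : ℝ => (x, b)) ⁻¹' interior L0) :=
        isOpen_interior.preimage (by fun_prop)
      obtain ⟨b, hb1, hb2⟩ := (hd k x).inter_open_nonempty _ hop ⟨a, ha⟩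
      exact ⟨b, hb1, hb2⟩
    choose a ha using h1
    have h2 : ∀ x, ∃ c : Set (X × ℝ), IsCompact c ∧ (x, a x) ∈ interior c ∧
        c ⊆ interior L0 ∩ W k := fun x =>
      exists_compact_subset (isOpen_interior.inter (hW k)) (ha x)
    choose c hc1 hc2 hc3 using h2
    have h3 : ∀ x ∈ (Set.univ : Set X), (fun y : X => (y, a x)) ⁻¹' interior (c x) ∈ 𝓝 x := by
      intro x _
      apply (isOpen_interior.preimage (by fun_prop)).mem_nhds
      exact hc2 x
    obtain ⟨t, _, ht⟩ := isCompact_univ.elim_nhds_subcover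
      (fun x : X => (fun y : X => (y, a x)) ⁻¹' interior (c x)) h3
    refine ⟨⋃ x ∈ t, c x, ?_, t.isCompact_biUnion (fun x _ => hc1 x), ?_⟩
    · apply Set.iUnion₂_subset
      intro x _
      exact (hc3 x).trans (Set.inter_subset_inter_left _ interior_subset)
    · intro y
      obtain ⟨x, hx, hy⟩ := Set.mem_iUnion₂.1 (ht (Set.mem_univ y))
      refine ⟨a x, ?_⟩
      have h4 : interior (c x) ⊆ interior (⋃ x ∈ t, c x) :=
        interior_mono (Set.subset_biUnion_of_mem (u := fun x => c x) hx)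
      exact h4 hy
  choose! nx hn1 hn2 hn3 using step
  set Q : Set (X × ℝ) := (Set.univ : Set X) ×ˢ Set.Icc (-1 : ℝ) 1 with hQ
  let L : ℕ → Set (X × ℝ) := fun k => Nat.rec Q (fun j T => nx j T) k
  have hL0 : L 0 = Q := rfl
  have hLs : ∀ k, L (k + 1) = nx k (L k) := fun k => rfl
  have hint : ∀ k, ∀ x, ∃ a, (x, a) ∈ interior (L k) := by
    intro k
    induction k with
    | zero =>
      intro x
      refine ⟨0, ?_⟩
      rw [hL0, hQ, interior_prod_eq, interior_univ, interior_Icc]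
      exact ⟨Set.mem_univ _, by norm_num⟩
    | succ k ih =>
      rw [hLs]
      exact hn3 k _ ih
  have hcomp : ∀ k, IsCompact (L k) := by
    intro k
    cases k with
    | zero => exact isCompact_univ.prod isCompact_Icc
    | succ k =>
      rw [hLs]
      exact hn2 k _ (hint k)
  have hsub : ∀ k, L (k + 1) ⊆ L k ∩ W k := by
    intro k
    rw [hLs]
    exact hn1 k _ (hint k)
  refine ⟨⋂ k, L k, ?_, ?_, ?_⟩
  · exact (hcomp 0).of_isClosed_subset (isClosed_iInter (fun k => (hcomp k).isClosed))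
      (Set.iInter_subset _ 0)
  · intro k
    exact (Set.iInter_subset _ (k + 1)).trans ((hsub k).trans Set.inter_subset_right)
  · intro x
    have hcl : IsClosed {p : X × ℝ | p.1 = x} := isClosed_eq continuous_fst continuous_const
    obtain ⟨p, hp⟩ := IsCompact.nonempty_iInter_of_sequence_nonempty_isCompact_isClosed
      (fun k => L k ∩ {p : X × ℝ | p.1 = x})
      (fun k => Set.inter_subset_inter_left _ ((hsub k).trans Set.inter_subset_left))
      (fun k => by
        obtain ⟨a, ha⟩ := hint k x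
        exact ⟨(x, a), interior_subset ha, rfl⟩)
      ((hcomp 0).inter_right hcl) (fun k => (hcomp k).isClosed.inter hcl)
    rw [Set.mem_iInter] at hp
    have hpx : p.1 = x := (hp 0).2
    refine ⟨p.2, Set.mem_iInter.2 (fun k => ?_)⟩
    rw [← hpx]
    exact (hp k).1

/-- the unit vector of slope `a` -/
noncomputable def uv (a : ℝ) : Plane := !₂[1 / Real.sqrt (1 + a ^ 2), a / Real.sqrt (1 + a ^ 2)]

theorem uv_zero (a : ℝ) : uv a 0 = 1 / Real.sqrt (1 + a ^ 2) := by simp [uv]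
theorem uv_one (a : ℝ) : uv a 1 = a / Real.sqrt (1 + a ^ 2) := by simp [uv]

theorem rt_pos (a : ℝ) : 0 < Real.sqrt (1 + a ^ 2) := Real.sqrt_pos.2 (by positivity)
theorem rt_sq (a : ℝ) : Real.sqrt (1 + a ^ 2) ^ 2 = 1 + a ^ 2 := Real.sq_sqrt (by positivity)
theorem one_le_rt (a : ℝ) : 1 ≤ Real.sqrt (1 + a ^ 2) :=
  Real.one_le_sqrt.2 (by nlinarith [sq_nonneg a])

theorem uv_norm (a : ℝ) : ‖uv a‖ = 1 := by
  apply norm_of_sq
  have := rt_pos a
  rw [uv_zero, uv_one]
  field_simp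
  rw [rt_sq]

theorem uv_pos (a : ℝ) : 0 < uv a 0 := by
  rw [uv_zero]
  have := rt_pos a
  positivity

theorem uv_slope (a : ℝ) : uv a 1 / uv a 0 = a := by
  rw [uv_zero, uv_one]
  have := rt_pos a
  field_simp

theorem uv_cont : Continuous uv := by
  have h : ∀ a : ℝ, Real.sqrt (1 + a ^ 2) ≠ 0 := fun a => (rt_pos a).ne'
  have h1 : Continuous (fun a : ℝ => Real.sqrt (1 + a ^ 2)) := by fun_prop
  rw [show uv = (fun a => WithLp.toLp 2 ![1 / Real.sqrt (1 + a ^ 2), a / Real.sqrt (1 + a ^ 2)])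
    from rfl]
  apply (PiLp.continuous_toLp 2 _).comp
  apply continuous_pi
  intro i
  fin_cases i
  · exact continuous_const.div h1 h
  · exact continuous_id.div h1 h

theorem toPlane_cont : Continuous toPlane := by
  rw [show toPlane = (fun z => WithLp.toLp 2 ![z.1, z.2]) from rfl]
  apply (PiLp.continuous_toLp 2 _).comp
  apply continuous_pi
  intro i
  fin_cases i
  · exact continuous_fst
  · exact continuous_snd

/-- a compact family of unit segments has a compact union -/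
theorem compact_family (Y : Type) [TopologicalSpace Y] (L : Set Y) (hL : IsCompact L)
    (x e : Y → Plane) (hx : Continuous x) (he : Continuous e) :
    IsCompact (⋃ y ∈ L, segment ℝ (x y) (x y + e y)) := by
  have h : (⋃ y ∈ L, segment ℝ (x y) (x y + e y)) =
      (fun p : Y × ℝ => x p.1 + p.2 • e p.1) '' (L ×ˢ Set.Icc (0 : ℝ) 1) := by
    ext v
    simp only [Set.mem_iUnion, Set.mem_image, Set.mem_prod, exists_prop, Prod.exists]
    constructor
    · rintro ⟨y, hy, hv⟩
      rw [segment_eq_image'] at hv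
      obtain ⟨θ, hθ, rfl⟩ := hv
      exact ⟨y, θ, ⟨hy, hθ⟩, by rw [add_sub_cancel_left]⟩
    · rintro ⟨y, θ, ⟨hy, hθ⟩, rfl⟩
      refine ⟨y, hy, ?_⟩
      rw [segment_eq_image']
      exact ⟨θ, hθ, by simp only [add_sub_cancel_left]⟩
  rw [h]
  apply (hL.prod isCompact_Icc).image
  fun_prop

/-- the compact union of unit segments through the points of `K` -/
theorem part_one : ∃ E : Set Plane, IsCompact E ∧ volume E = 0 ∧ (∀ z ∈ K, toPlane z ∈ E) ∧
    ∀ v ∈ E, ∃ x e : Plane, ‖e‖ = 1 ∧ v ∈ segment ℝ x (x + e) ∧ segment ℝ x (x + e) ⊆ E := by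
  obtain ⟨O, hO1, hO2, hO3⟩ := opens
  have : CompactSpace K := isCompact_iff_compactSpace.1 K_compact
  have hopen : ∀ k, IsOpen {p : K × ℝ | seg (p.1 : ℝ × ℝ) p.2 ⊆ O k} := by
    intro k
    rw [isOpen_iff_mem_nhds]
    rintro ⟨z0, a0⟩ h0
    have h1 : ∀ t ∈ Set.Icc (0 : ℝ) 2, ((z0 : ℝ × ℝ).1 - t, (z0 : ℝ × ℝ).2 - a0 * t) ∈ O k := by
      intro t ht
      apply h0
      refine ⟨⟨?_, ?_⟩, ?_⟩
      · simp only
        linarith [ht.2]
      · simp only
        linarith [ht.1]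
      · simp only
        ring
    have h2 := isCompact_Icc.eventually_forall_of_forall_eventually (x₀ := ((z0, a0) : K × ℝ))
      (K := Set.Icc (0 : ℝ) 2) (P := fun p t => ((p.1 : ℝ × ℝ).1 - t, (p.1 : ℝ × ℝ).2 - p.2 * t) ∈ O k)
      (by
        intro t ht
        have hcont : Continuous (fun q : (K × ℝ) × ℝ =>
          ((q.1.1 : ℝ × ℝ).1 - q.2, (q.1.1 : ℝ × ℝ).2 - q.1.2 * q.2)) := by fun_prop
        exact hcont.continuousAt.eventually ((hO1 k).mem_nhds (h1 t ht)))
    filter_upwards [h2] with p hp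
    rintro ⟨x, y⟩ ⟨hx, hy⟩
    simp only at hx hy
    have h3 := hp ((p.1 : ℝ × ℝ).1 - x) ⟨by linarith [hx.2], by linarith [hx.1]⟩
    have e1 : (p.1 : ℝ × ℝ).1 - ((p.1 : ℝ × ℝ).1 - x) = x := by ring
    have e2 : (p.1 : ℝ × ℝ).2 - p.2 * ((p.1 : ℝ × ℝ).1 - x) = y := by
      rw [hy]
      ring
    rwa [e1, e2] at h3
  obtain ⟨L, hL1, hL2, hL3⟩ := nested K _ hopen (fun k z => hO3 z z.2 k)
  refine ⟨⋃ p ∈ L, segment ℝ (toPlane p.1 - uv p.2) (toPlane p.1 - uv p.2 + uv p.2), ?_, ?_, ?_, ?_⟩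
  · apply compact_family (K × ℝ) L hL1 (fun p => toPlane p.1 - uv p.2) (fun p => uv p.2)
    · exact (toPlane_cont.comp (continuous_subtype_val.comp continuous_fst)).sub
        (uv_cont.comp continuous_snd)
    · exact uv_cont.comp continuous_snd
  · apply measure_mono_null _ (null_preimage _ hO2)
    intro v hv
    obtain ⟨p, hp, hv⟩ := Set.mem_iUnion₂.1 hv
    refine segment_sub _ _ (uv_norm _) (uv_pos _) _ ?_ v hv
    rw [uv_slope]
    exact Set.subset_iInter (fun k => hL2 k hp)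
  · intro z hz
    obtain ⟨a, ha⟩ := hL3 ⟨z, hz⟩
    refine Set.mem_biUnion ha ?_
    simp only [sub_add_cancel]
    exact right_mem_segment ℝ _ _
  · intro v hv
    obtain ⟨p, hp, hv⟩ := Set.mem_iUnion₂.1 hv
    refine ⟨toPlane p.1 - uv p.2, uv p.2, uv_norm _, hv, ?_⟩
    exact Set.subset_biUnion_of_mem
      (u := fun p : K × ℝ => segment ℝ (toPlane p.1 - uv p.2) (toPlane p.1 - uv p.2 + uv p.2)) hp

end Pool.Agent.J4H86.BES
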