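import Mathlib
import Pool.Agent.J4H86.BES.Compact

set_option autoImplicit false

open MeasureTheory Metric
open scoped ENNReal Topology
open Pool.Agent.Results.MP_6b55e5_an.RogersQ2 (Plane IsStrip IsBesicovitch HasStripCover PropertyS
  sw sw_zero sw_one measurePreserving_sw volume_piece level)

namespace Pool.Agent.J4H86.BES

theorem eq_uv (e : Plane) (he : ‖e‖ = 1) (h0 : e 0 ≠ 0) :
    e = uv (e 1 / e 0) ∨ e = - uv (e 1 / e 0) := by
  have hsq := sq_of_norm e he
  have h1 : 1 + (e 1 / e 0) ^ 2 = (1 / |e 0|) ^ 2 := by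
    rw [div_pow, div_pow, sq_abs]
    field_simp
    linarith
  have h2 : Real.sqrt (1 + (e 1 / e 0) ^ 2) = 1 / |e 0| := by
    rw [h1, Real.sqrt_sq (by positivity)]
  rcases lt_or_gt_of_ne h0 with h | h
  · right
    ext i
    fin_cases i
    · show e 0 = - uv (e 1 / e 0) 0
      rw [uv_zero, h2, abs_of_neg h]
      field_simp
    · show e 1 = - uv (e 1 / e 0) 1
      rw [uv_one, h2, abs_of_neg h]
      field_simp
  · left
    ext i
    fin_cases i
    · show e 0 = uv (e 1 / e 0) 0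
      rw [uv_zero, h2, abs_of_pos h]
      field_simp
    · show e 1 = uv (e 1 / e 0) 1
      rw [uv_one, h2, abs_of_pos h]
      field_simp

/-- a compact null union of unit segments with a segment in each direction of slope at most `1` -/
theorem part_two : ∃ E : Set Plane, IsCompact E ∧ volume E = 0 ∧
    (∀ e : Plane, ‖e‖ = 1 → |e 1| ≤ |e 0| → ∃ x : Plane, segment ℝ x (x + e) ⊆ E) ∧
    ∀ v ∈ E, ∃ x e : Plane, ‖e‖ = 1 ∧ v ∈ segment ℝ x (x + e) ∧ segment ℝ x (x + e) ⊆ E := by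
  choose ι hι g hg0 hg1 hg2 using fun k : ℕ => level (1 / ((k : ℝ) + 1)) (by positivity)
  set V : ℕ → Set (ℝ × ℝ) := fun k =>
    ⋃ i, {p | |p.2 - (g k i).1 * p.1 - (g k i).2.1| < 2 * (g k i).2.2} with hV
  have hVo : ∀ k, IsOpen (V k) := by
    intro k
    apply isOpen_iUnion
    intro i
    exact isOpen_lt (by fun_prop) continuous_const
  set W : ℕ → Set (Set.Icc (-1 : ℝ) 1 × ℝ) := fun k =>
    {p | ∀ x ∈ Set.Icc (0 : ℝ) 1, (x, (p.1 : ℝ) * x + p.2) ∈ V k} with hW
  have hWo : ∀ k, IsOpen (W k) := by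
    intro k
    rw [isOpen_iff_mem_nhds]
    intro p0 h0
    exact isCompact_Icc.eventually_forall_of_forall_eventually (x₀ := p0)
      (K := Set.Icc (0 : ℝ) 1) (P := fun p x => (x, (p.1 : ℝ) * x + p.2) ∈ V k)
      (by
        intro x hx
        have hcont : Continuous (fun q : (Set.Icc (-1 : ℝ) 1 × ℝ) × ℝ =>
          (q.2, (q.1.1 : ℝ) * q.2 + q.1.2)) := by fun_prop
        exact hcont.continuousAt.eventually ((hVo k).mem_nhds (h0 x hx)))
  have hWd : ∀ k (a : Set.Icc (-1 : ℝ) 1), Dense {b | (a, b) ∈ W k} := by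
    intro k a
    obtain ⟨U, _, hU2, hU3⟩ := hg2 k a a.2.1 a.2.2
    apply hU2.mono
    intro b hb x hx
    obtain ⟨i, hi⟩ := hU3 b hb x hx.1 hx.2
    refine Set.mem_iUnion.2 ⟨i, ?_⟩
    have h1 := hg0 k i
    have e1 : (a : ℝ) * x + b - (g k i).1 * x - (g k i).2.1 =
      ((a : ℝ) - (g k i).1) * x + (b - (g k i).2.1) := by ring
    show |(a : ℝ) * x + b - (g k i).1 * x - (g k i).2.1| < 2 * (g k i).2.2
    rw [e1]
    linarith
  obtain ⟨L, hL1, hL2, hL3⟩ := nested (Set.Icc (-1 : ℝ) 1) W hWo hWd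
  set X : Set.Icc (-1 : ℝ) 1 × ℝ → Plane := fun p => toPlane (0, p.2) with hX
  set Y : Set.Icc (-1 : ℝ) 1 × ℝ → Plane := fun p => uv p.1 with hY
  refine ⟨⋃ p ∈ L, segment ℝ (X p) (X p + Y p), ?_, ?_, ?_, ?_⟩
  · apply compact_family _ L hL1 X Y
    · exact toPlane_cont.comp (continuous_const.prodMk continuous_snd)
    · exact uv_cont.comp (continuous_subtype_val.comp continuous_fst)
  · have hlim : Filter.Tendsto (fun k : ℕ => ENNReal.ofReal 4 * ENNReal.ofReal (1 / ((k : ℝ) + 1)))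
        Filter.atTop (nhds 0) := by
      have h1 := ENNReal.tendsto_ofReal (tendsto_one_div_add_atTop_nhds_zero_nat (𝕜 := ℝ))
      rw [ENNReal.ofReal_zero] at h1
      have h2 := ENNReal.Tendsto.const_mul (a := ENNReal.ofReal 4) h1 (Or.inr ENNReal.ofReal_ne_top)
      simpa using h2
    refine le_antisymm (ge_of_tendsto' hlim (fun k => ?_)) zero_le
    have := hι k
    have hsub : (⋃ p ∈ L, segment ℝ (X p) (X p + Y p)) ⊆ ⋃ i, {v : Plane | 0 ≤ v 0 ∧ v 0 ≤ 1 ∧
        |v 1 - (g k i).1 * v 0 - (g k i).2.1| ≤ 2 * (g k i).2.2} := by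
      intro v hv
      obtain ⟨p, hp, hv⟩ := Set.mem_iUnion₂.1 hv
      rw [segment_eq_image'] at hv
      obtain ⟨θ, ⟨h1, h2⟩, rfl⟩ := hv
      rw [add_sub_cancel_left]
      have h3 := one_le_rt (p.1 : ℝ)
      have h4 := rt_pos (p.1 : ℝ)
      have e0 : (X p + θ • Y p) 0 = θ / Real.sqrt (1 + (p.1 : ℝ) ^ 2) := by
        simp only [hX, hY, PiLp.add_apply, PiLp.smul_apply, smul_eq_mul, toPlane_zero, uv_zero]
        ring
      have e1 : (X p + θ • Y p) 1 = (p.1 : ℝ) * (θ / Real.sqrt (1 + (p.1 : ℝ) ^ 2)) + p.2 := by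
        simp only [hX, hY, PiLp.add_apply, PiLp.smul_apply, smul_eq_mul, toPlane_one, uv_one]
        ring
      have h5 : 0 ≤ θ / Real.sqrt (1 + (p.1 : ℝ) ^ 2) := by positivity
      have h6 : θ / Real.sqrt (1 + (p.1 : ℝ) ^ 2) ≤ 1 := by
        rw [div_le_one h4]
        linarith
      obtain ⟨i, hi⟩ := Set.mem_iUnion.1 (hL2 k hp _ ⟨h5, h6⟩)
      refine Set.mem_iUnion.2 ⟨i, ?_⟩
      simp only [Set.mem_ofPred_eq, e0, e1] at hi ⊢
      exact ⟨h5, h6, hi.le⟩
    refine (measure_mono hsub).trans ((measure_iUnion_le _).trans ?_)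
    refine (ENNReal.tsum_le_tsum (fun i => volume_piece _ _ _)).trans ?_
    have e : ∀ i, ENNReal.ofReal (2 * (2 * (g k i).2.2)) =
        ENNReal.ofReal 4 * ENNReal.ofReal (g k i).2.2 := by
      intro i
      rw [← ENNReal.ofReal_mul (by norm_num)]
      congr 1
      ring
    rw [tsum_congr e, ENNReal.tsum_mul_left]
    gcongr
    exact (hg1 k).le
  · intro e he hc
    have hsq := sq_of_norm e he
    have h0 : e 0 ≠ 0 := by
      intro h
      rw [h, abs_zero] at hc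
      have h1 : e 1 = 0 := abs_eq_zero.1 (le_antisymm hc (abs_nonneg _))
      rw [h, h1] at hsq
      norm_num at hsq
    have ha : |e 1 / e 0| ≤ 1 := by
      rw [abs_div, div_le_one (abs_pos.2 h0)]
      exact hc
    rw [abs_le] at ha
    obtain ⟨b, hb⟩ := hL3 ⟨e 1 / e 0, ha⟩
    have hsub : segment ℝ (X (⟨e 1 / e 0, ha⟩, b)) (X (⟨e 1 / e 0, ha⟩, b) +
        Y (⟨e 1 / e 0, ha⟩, b)) ⊆ ⋃ p ∈ L, segment ℝ (X p) (X p + Y p) :=
      Set.subset_biUnion_of_mem
        (u := fun p : Set.Icc (-1 : ℝ) 1 × ℝ => segment ℝ (X p) (X p + Y p)) hb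
    rcases eq_uv e he h0 with h | h
    · refine ⟨X (⟨e 1 / e 0, ha⟩, b), ?_⟩
      have h' : Y (⟨e 1 / e 0, ha⟩, b) = e := h.symm
      rwa [h'] at hsub
    · refine ⟨X (⟨e 1 / e 0, ha⟩, b) + Y (⟨e 1 / e 0, ha⟩, b), ?_⟩
      have h' : Y (⟨e 1 / e 0, ha⟩, b) = -e := by
        show uv (e 1 / e 0) = -e
        rw [← neg_eq_iff_eq_neg]
        exact h.symm
      rw [h'] at hsub ⊢
      rwa [neg_add_cancel_right, segment_symm]
  · intro v hv
    obtain ⟨p, hp, hv⟩ := Set.mem_iUnion₂.1 hv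
    refine ⟨X p, Y p, uv_norm _, hv, ?_⟩
    exact Set.subset_biUnion_of_mem
      (u := fun p : Set.Icc (-1 : ℝ) 1 × ℝ => segment ℝ (X p) (X p + Y p)) hp

theorem sw_sw (v : Plane) : sw (sw v) = v := by
  ext i
  fin_cases i
  · show sw (sw v) 0 = v 0
    rw [sw_zero, sw_one]
  · show sw (sw v) 1 = v 1
    rw [sw_one, sw_zero]

theorem sw_norm (v : Plane) (h : ‖v‖ = 1) : ‖sw v‖ = 1 := by
  apply norm_of_sq
  rw [sw_zero, sw_one]
  have := sq_of_norm v h
  linarith

theorem sw_comb (x e : Plane) (θ : ℝ) : sw (x + θ • e) = sw x + θ • sw e := by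
  ext i
  fin_cases i
  · show sw (x + θ • e) 0 = (sw x + θ • sw e) 0
    simp only [PiLp.add_apply, PiLp.smul_apply, sw_zero]
  · show sw (x + θ • e) 1 = (sw x + θ • sw e) 1
    simp only [PiLp.add_apply, PiLp.smul_apply, sw_one]

theorem sw_segment (x e v : Plane) (h : v ∈ segment ℝ x (x + e)) :
    sw v ∈ segment ℝ (sw x) (sw x + sw e) := by
  rw [segment_eq_image'] at h ⊢
  obtain ⟨θ, hθ, rfl⟩ := h
  refine ⟨θ, hθ, ?_⟩
  simp only [add_sub_cancel_left]
  rw [sw_comb]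

theorem sw_segment_sub (x e : Plane) (E : Set Plane) (h : segment ℝ x (x + e) ⊆ E) :
    segment ℝ (sw x) (sw x + sw e) ⊆ sw '' E := by
  intro v hv
  have h1 := sw_segment _ _ _ hv
  rw [sw_sw, sw_sw] at h1
  exact ⟨sw v, h h1, sw_sw v⟩

theorem sw_cont : Continuous sw := by
  rw [show sw = (fun v => WithLp.toLp 2 ![v 1, v 0]) from rfl]
  apply (PiLp.continuous_toLp 2 _).comp
  apply continuous_pi
  intro i
  fin_cases i
  · exact (by fun_prop : Continuous fun v : Plane => v 1)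
  · exact (by fun_prop : Continuous fun v : Plane => v 0)

/-- a compact null union of unit segments, one in each direction, without economical covering -/
theorem partB : ∃ E : Set Plane, IsCompact E ∧ IsBesicovitch E ∧
    (∀ v ∈ E, ∃ x e : Plane, ‖e‖ = 1 ∧ v ∈ segment ℝ x (x + e) ∧ segment ℝ x (x + e) ⊆ E) ∧
    ¬ HasStripCover E (1 / 200) := by
  obtain ⟨E1, h1c, h10, h1K, h1u⟩ := part_one
  obtain ⟨E2, h2c, h20, h2d, h2u⟩ := part_two
  have h3c : IsCompact (sw '' E2) := h2c.image sw_cont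
  have h30 : volume (sw '' E2) = 0 := by
    have e : sw '' E2 = sw ⁻¹' E2 := by
      ext v
      constructor
      · rintro ⟨u, hu, rfl⟩
        show sw (sw u) ∈ E2
        rwa [sw_sw]
      · intro hv
        exact ⟨sw v, hv, sw_sw v⟩
    rw [e, measurePreserving_sw.measure_preimage h2c.isClosed.measurableSet.nullMeasurableSet]
    exact h20
  have hcomp : IsCompact (E1 ∪ (E2 ∪ sw '' E2)) := h1c.union (h2c.union h3c)
  refine ⟨E1 ∪ (E2 ∪ sw '' E2), hcomp, ⟨hcomp.isBounded, ?_, ?_⟩, ?_, ?_⟩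
  · exact measure_union_null h10 (measure_union_null h20 h30)
  · intro e he
    rcases le_total |e 1| |e 0| with hc | hc
    · obtain ⟨x, hx⟩ := h2d e he hc
      exact ⟨x, hx.trans (Set.subset_union_left.trans Set.subset_union_right)⟩
    · obtain ⟨x, hx⟩ := h2d (sw e) (sw_norm e he) (by rwa [sw_one, sw_zero])
      refine ⟨sw x, ?_⟩
      have h := sw_segment_sub _ _ _ hx
      rw [sw_sw] at h
      exact h.trans (Set.subset_union_right.trans Set.subset_union_right)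
  · rintro v (hv | hv | ⟨u, hu, rfl⟩)
    · obtain ⟨x, e, he, h1, h2⟩ := h1u v hv
      exact ⟨x, e, he, h1, h2.trans Set.subset_union_left⟩
    · obtain ⟨x, e, he, h1, h2⟩ := h2u v hv
      exact ⟨x, e, he, h1, h2.trans (Set.subset_union_left.trans Set.subset_union_right)⟩
    · obtain ⟨x, e, he, h1, h2⟩ := h2u u hu
      exact ⟨sw x, sw e, sw_norm e he, sw_segment _ _ _ h1,
        (sw_segment_sub _ _ _ h2).trans (Set.subset_union_right.trans Set.subset_union_right)⟩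
  · exact not_cover _ (fun z hz => Or.inl (h1K z hz))

end Pool.Agent.J4H86.BES
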